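import Pool.Agent.R432.V12
import Pool.Agent.Y405.CT.CriB

/-!
# BSD over cyclic cubic fields, piece A, part 1: the three twists
-/

set_option autoImplicit false
set_option linter.unusedSectionVars false

open scoped Classical

namespace Pool.Agent.Run7.h741.CC

open Pool.Agent.Y692.QS hiding chi
open Pool.Agent.Y715.T.Rec (cs nn)
open Pool.Agent.Y715.T.RecG (Pq cs_spec)
open Pool.Agent.Y405.CT (pq_star cs_starG)
open Pool.Agent.Y703.CT (Dt pD Ker)

/-- `β = (u + 3 v √-3) / 2`, of norm `n = (u² + 27 v²) / 4` -/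
def bet (u v : ℤ) : Ei := ⟨(u + 3 * v) / 2, 3 * v⟩

section arith

variable {u v : ℤ} {n : ℕ}

lemma par (hn : 4 * (n : ℤ) = u ^ 2 + 27 * v ^ 2) : (u + 3 * v) / 2 * 2 = u + 3 * v := by
  have h1 : (u + 3 * v) % 2 = 0 := by
    rcases Int.emod_two_eq_zero_or_one u with h | h <;>
    rcases Int.emod_two_eq_zero_or_one v with h' | h'
    · omega
    · exfalso
      have h2 : (u ^ 2 + 27 * v ^ 2) % 2 = 1 := by
        rw [pow_two, pow_two]
        simp [Int.add_emod, Int.mul_emod, h, h']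
      omega
    · exfalso
      have h2 : (u ^ 2 + 27 * v ^ 2) % 2 = 1 := by
        rw [pow_two, pow_two]
        simp [Int.add_emod, Int.mul_emod, h, h']
      omega
    · omega
  omega

lemma nr_bet (hn : 4 * (n : ℤ) = u ^ 2 + 27 * v ^ 2) : nr (bet u v) = n := by
  have h1 := par hn
  unfold nr bet
  simp only
  generalize (u + 3 * v) / 2 = a at h1 ⊢
  have h2 : u = a * 2 - 3 * v := by linarith
  subst h2
  linarith

lemma bet_mul (hn : 4 * (n : ℤ) = u ^ 2 + 27 * v ^ 2) :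
    bet u v * star (bet u v) = ((n : ℕ) : Ei) := by
  rw [mul_star, nr_bet hn, Int.cast_natCast]

lemma bet_add (hn : 4 * (n : ℤ) = u ^ 2 + 27 * v ^ 2) :
    bet u v + star (bet u v) = ((u : ℤ) : Ei) := by
  have h1 := par hn
  ext
  · rw [QuadraticAlgebra.re_add, star_re, QuadraticAlgebra.re_intCast]
    show (u + 3 * v) / 2 + ((u + 3 * v) / 2 - 3 * v) = u
    linarith
  · rw [QuadraticAlgebra.im_add, star_im, QuadraticAlgebra.im_intCast]
    show 3 * v + -(3 * v) = 0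
    ring

lemma bet_sub (hn : 4 * (n : ℤ) = u ^ 2 + 27 * v ^ 2) :
    bet u v - star (bet u v) = 3 * (v : Ei) * (1 + 2 * w) := by
  have h1 := par hn
  have h2 : bet u v = (((u + 3 * v) / 2 : ℤ) : Ei) + ((3 * v : ℤ) : Ei) * w := by
    unfold bet
    rw [mk_eq]
  have h3 : star (bet u v) = (((u + 3 * v) / 2 : ℤ) : Ei) + ((3 * v : ℤ) : Ei) * w ^ 2 := by
    rw [h2, star_add, star_mul', star_w, star_intCast, star_intCast]
  rw [h3, h2]
  have h4 : (w : Ei) ^ 2 = -1 - w := by decide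
  rw [h4]
  push_cast
  ring

lemma n_three (hn : 4 * (n : ℤ) = u ^ 2 + 27 * v ^ 2) (hsq : Squarefree n) : n % 3 = 1 := by
  have h3 : ¬ (3 : ℤ) ∣ u := by
    rintro ⟨c, rfl⟩
    have h4 : (9 : ℤ) ∣ 4 * (n : ℤ) := ⟨c ^ 2 + 3 * v ^ 2, by rw [hn]; ring⟩
    have h5 : (9 : ℤ) ∣ (n : ℤ) := by
      have h6 : IsCoprime (9 : ℤ) 4 := ⟨1, -2, by norm_num⟩
      exact h6.dvd_of_dvd_mul_left h4
    have h6 : 3 * 3 ∣ n := by
      have : ((9 : ℕ) : ℤ) ∣ (n : ℤ) := by exact_mod_cast h5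
      exact_mod_cast this
    have h7 := hsq 3 h6
    rw [Nat.isUnit_iff] at h7
    omega
  have h4 : (n : ℤ) % 3 = 1 := by
    have h5 : u % 3 = 1 ∨ u % 3 = 2 := by omega
    have h6 : u ^ 2 % 3 = 1 := by
      rcases h5 with h | h <;> simp [pow_two, Int.mul_emod, h]
    have h7 : 4 * (n : ℤ) = u ^ 2 + 3 * (9 * v ^ 2) := by rw [hn]; ring
    omega
  omega

/-- no prime divides `n` and `u` -/
lemma cop (hn : 4 * (n : ℤ) = u ^ 2 + 27 * v ^ 2) (hsq : Squarefree n) {p : ℕ} (hp : p.Prime)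
    (h1 : p ∣ n) (h2 : (p : ℤ) ∣ u) : False := by
  have h3 := n_three hn hsq
  have hp3 : p ≠ 3 := by
    rintro rfl
    omega
  have hpi : Prime (p : ℤ) := Nat.prime_iff_prime_int.1 hp
  have h4 : (p : ℤ) ∣ 27 * v ^ 2 := by
    have h5 : (p : ℤ) ∣ 4 * (n : ℤ) := Dvd.dvd.mul_left (by exact_mod_cast h1) _
    rw [hn] at h5
    exact (dvd_add_right (dvd_pow h2 two_ne_zero)).1 h5
  have h5 : (p : ℤ) ∣ v := by
    rcases hpi.dvd_or_dvd h4 with h | h
    · exfalso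
      have h6 : p ∣ 3 ^ 3 := by
        have : (p : ℤ) ∣ ((3 ^ 3 : ℕ) : ℤ) := by norm_num; exact h
        exact_mod_cast this
      exact hp3 ((Nat.prime_dvd_prime_iff_eq hp Nat.prime_three).1 (hp.dvd_of_dvd_pow h6))
    · exact hpi.dvd_of_dvd_pow h
  by_cases hp2 : p = 2
  · subst hp2
    obtain ⟨a, rfl⟩ := h2
    obtain ⟨b, rfl⟩ := h5
    obtain ⟨c, rfl⟩ := h1
    push_cast at hn
    have hc : (2 : ℤ) * c = a ^ 2 + 27 * b ^ 2 := by linarith
    have h6 : (a + b) % 2 = 0 := by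
      rcases Int.emod_two_eq_zero_or_one a with h | h <;>
      rcases Int.emod_two_eq_zero_or_one b with h' | h'
      · omega
      · exfalso
        have h2 : (a ^ 2 + 27 * b ^ 2) % 2 = 1 := by
          rw [pow_two, pow_two]
          simp [Int.add_emod, Int.mul_emod, h, h']
        omega
      · exfalso
        have h2 : (a ^ 2 + 27 * b ^ 2) % 2 = 1 := by
          rw [pow_two, pow_two]
          simp [Int.add_emod, Int.mul_emod, h, h']
        omega
      · omega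
    obtain ⟨d, hd⟩ : ∃ d, a = 2 * d - b := ⟨(a + b) / 2, by omega⟩
    subst hd
    have h7 : (c : ℤ) = 2 * (d ^ 2 - d * b + 7 * b ^ 2) := by linarith
    have h8 : 2 ∣ c := by
      have : ((2 : ℕ) : ℤ) ∣ (c : ℤ) := ⟨_, by exact_mod_cast h7⟩
      exact_mod_cast this
    have h9 := hsq 2 (Nat.mul_dvd_mul_left 2 h8)
    rw [Nat.isUnit_iff] at h9
    omega
  · obtain ⟨a, rfl⟩ := h2
    obtain ⟨b, rfl⟩ := h5
    have h6 : ((p : ℤ) * p) ∣ 4 * (n : ℤ) := ⟨a ^ 2 + 27 * b ^ 2, by rw [hn]; ring⟩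
    have h7 : p * p ∣ 4 * n := by exact_mod_cast h6
    have h8 : Nat.Coprime (p * p) 4 := by
      have h9 : Nat.Coprime p 2 := (Nat.coprime_primes hp Nat.prime_two).2 hp2
      have : Nat.Coprime (p * p) (2 * 2) := Nat.Coprime.mul_left
        (Nat.Coprime.mul_right h9 h9) (Nat.Coprime.mul_right h9 h9)
      exact this
    have h10 := hsq p (h8.dvd_of_dvd_mul_left h7)
    rw [Nat.isUnit_iff] at h10
    exact hp.one_lt.ne' h10

end arith

/-! ### the twist data -/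

section data

variable {q : ℕ}

lemma q_three (hq9 : q % 9 = 2 ∨ q % 9 = 5) : q % 3 = 2 := by omega

lemma dt_q (hq : q.Prime) (hq9 : q % 9 = 2 ∨ q % 9 = 5) :
    Dt (fun _ : Unit => -((q : ℕ) : Ei)) (fun _ => (1 : ZMod 3)) := by
  refine ⟨fun _ => Pool.Agent.Y696.CT.inert hq (q_three hq9), fun i j h => absurd rfl h,
    fun _ => one_ne_zero⟩

lemma pD_q : pD (fun _ : Unit => -((q : ℕ) : Ei)) (fun _ => (1 : ZMod 3)) = -((q : ℕ) : Ei) := by
  unfold pD
  rw [Fintype.prod_unique]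
  exact pow_one _

lemma ker_q : Ker (fun _ : Unit => -((q : ℕ) : Ei)) (fun _ => (1 : ZMod 3)) :=
  fun _ _ _ _ => rfl

variable {J : Type} [Fintype J] {π : J → Ei} {e : J → ZMod 3}

lemma dt_star (hD : Dt π e) : Dt (fun i => star (π i)) e := by
  refine ⟨fun i => pq_star (hD.pq i), fun i j h hd => hD.nd i j h ?_, hD.e0⟩
  have h1 := Pool.Agent.Y715.T.RecC.star_dvd hd
  rwa [star_star, star_star] at h1

lemma pD_star : pD (fun i => star (π i)) e = star (pD π e) := by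
  unfold pD
  rw [star_prod]
  exact Finset.prod_congr rfl fun i _ => (star_pow _ _).symm

lemma ker_star (hD : Dt π e) (hk : Ker π e) : Ker (fun i => star (π i)) e := by
  intro v hv
  apply hk v
  intro j
  have h1 := hv j
  rw [← neg_eq_zero, ← Finset.sum_neg_distrib] at h1
  rw [← h1]
  refine Finset.sum_congr rfl fun i _ => ?_
  by_cases hij : i = j
  · subst hij
    ring
  · rw [cs_starG (hD.pq j) (hD.nd i j hij)]
    ring

lemma nine_q (hq9 : q % 9 = 2 ∨ q % 9 = 5) {n : ℕ} (hn : n % 3 = 1) :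
    ¬ (9 : ℤ) ∣ (q : ℤ) ^ 2 * (n : ℤ) ^ 3 - 1 := by
  intro h
  obtain ⟨k, rfl⟩ : ∃ k, n = 3 * k + 1 := ⟨n / 3, by omega⟩
  have h1 : (9 : ℤ) ∣ (q : ℤ) ^ 2 - 1 := by
    have h2 : (q : ℤ) ^ 2 * ((3 * k + 1 : ℕ) : ℤ) ^ 3 - 1 =
        9 * ((q : ℤ) ^ 2 * (3 * k ^ 3 + 3 * k ^ 2 + k)) + ((q : ℤ) ^ 2 - 1) := by
      push_cast
      ring
    rw [h2] at h
    exact (dvd_add_right (Dvd.intro _ rfl)).1 h
  have h2 : ((q : ℤ) ^ 2 - 1) % 9 = 0 := Int.emod_eq_zero_of_dvd h1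
  have h3 : (q : ℤ) % 9 = 2 ∨ (q : ℤ) % 9 = 5 := by omega
  rcases h3 with h3 | h3
  · simp [pow_two, Int.sub_emod, Int.mul_emod, h3] at h2
  · simp [pow_two, Int.sub_emod, Int.mul_emod, h3] at h2

end data

end Pool.Agent.Run7.h741.CC
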