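import Mathlib
import Pool.Agent.Y692.QS.Ei

/-!
# BSD over cyclic cubic fields, piece A: the field `ℚ(θ)`, `θ³ = 3nθ + nu`
-/

set_option autoImplicit false
set_option linter.unusedSectionVars false

open Polynomial

namespace Pool.Agent.Run7.h741.CC

section rat

variable {u v : ℤ} {n : ℕ}

/-- no rational root -/
lemma no_rat (hcop : ∀ p : ℕ, p.Prime → p ∣ n → ¬ (p : ℤ) ∣ u) (hsq : Squarefree n)
    (hn1 : n ≠ 1) (t : ℚ) : t ^ 3 ≠ 3 * (n : ℚ) * t + (n : ℚ) * (u : ℚ) := by
  intro h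
  have hint : IsIntegral ℤ t := by
    obtain ⟨a, ha⟩ : ∃ a : ℤ, a = 3 * (n : ℤ) := ⟨_, rfl⟩
    obtain ⟨b, hb⟩ : ∃ b : ℤ, b = (n : ℤ) * u := ⟨_, rfl⟩
    refine ⟨X ^ 3 - (C a * X + C b), ?_, ?_⟩
    · apply Monic.sub_of_left (monic_X_pow 3)
      refine lt_of_le_of_lt (degree_linear_le) ?_
      rw [degree_X_pow]
      norm_num
    · rw [eval₂_sub, eval₂_add, eval₂_mul, eval₂_X_pow, eval₂_C, eval₂_C, eval₂_X,
        algebraMap_int_eq, eq_intCast, eq_intCast, ha, hb]
      push_cast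
      rw [h]
      ring
  obtain ⟨m, hm⟩ := IsIntegrallyClosed.isIntegral_iff.1 hint
  have h1 : m ^ 3 = 3 * (n : ℤ) * m + (n : ℤ) * u := by
    rw [← hm] at h
    simp only [algebraMap_int_eq, eq_intCast] at h
    exact_mod_cast h
  obtain ⟨p, hp, hpn⟩ := Nat.exists_prime_and_dvd hn1
  have hpi : Prime (p : ℤ) := Nat.prime_iff_prime_int.1 hp
  obtain ⟨c, rfl⟩ := hpn
  have h2 : (p : ℤ) ∣ m ^ 3 := by
    rw [h1]
    push_cast
    exact ⟨3 * c * m + c * u, by ring⟩
  obtain ⟨k, rfl⟩ := hpi.dvd_of_dvd_pow h2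
  have hp0 : (p : ℤ) ≠ 0 := hpi.ne_zero
  have h3 : (p : ℤ) * ((p : ℤ) * k ^ 3) = c * (3 * (p * k) + u) := by
    apply mul_left_cancel₀ hp0
    push_cast at h1
    linear_combination h1
  have h4 : (p : ℤ) ∣ (c : ℤ) * (3 * (p * k) + u) := ⟨_, h3.symm⟩
  rcases hpi.dvd_or_dvd h4 with h5 | h5
  · have h6 : p * p ∣ p * c := Nat.mul_dvd_mul_left p (by exact_mod_cast h5)
    have h7 := hsq p h6
    rw [Nat.isUnit_iff] at h7
    exact hp.one_lt.ne' h7
  · have h6 : (p : ℤ) ∣ u := by
      have h7 : (p : ℤ) ∣ 3 * (p * k) := ⟨3 * k, by ring⟩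
      exact (dvd_add_right h7).1 h5
    exact hcop p hp ⟨c, rfl⟩ h6

end rat

section field

variable {u v : ℤ} {n : ℕ} {L : Type} [Field L] [NumberField L] {th : L}

lemma gen_th (hnr : ∀ t : ℚ, algebraMap ℚ L t ≠ th) (hd : Module.finrank ℚ L = 3)
    (M : Subfield L) (hM : th ∈ M) : M = ⊤ := by
  let E : IntermediateField ℚ L := IntermediateField.adjoin ℚ {th}
  have h1 : Module.finrank ℚ E * Module.finrank E L = 3 := by
    rw [Module.finrank_mul_finrank, hd]
  have h2 : Module.finrank ℚ E = 1 ∨ Module.finrank ℚ E = 3 :=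
    (Nat.dvd_prime Nat.prime_three).1 ⟨_, h1.symm⟩
  have h3 : E = ⊤ := by
    rcases h2 with h | h
    · exfalso
      have h4 : E = ⊥ := IntermediateField.finrank_eq_one_iff.1 h
      have h5 : th ∈ E := IntermediateField.mem_adjoin_simple_self ℚ th
      rw [h4, IntermediateField.mem_bot] at h5
      obtain ⟨t, ht⟩ := h5
      exact hnr t ht
    · apply IntermediateField.eq_of_le_of_finrank_eq le_top
      rw [h, IntermediateField.finrank_top', hd]
  let M' : IntermediateField ℚ L :=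
    { M with
      algebraMap_mem' := fun k => by
        have := SubfieldClass.ratCast_mem M k
        simpa using this }
  have h4 : E ≤ M' := by
    apply IntermediateField.adjoin_le_iff.2
    rintro x hx
    rw [Set.mem_singleton_iff.1 hx]
    exact hM
  rw [eq_top_iff]
  intro y _
  have h5 : y ∈ E := by rw [h3]; trivial
  exact h4 h5

variable (hn : 4 * (n : ℤ) = u ^ 2 + 27 * v ^ 2)
  (hth : th ^ 3 = 3 * (n : L) * th + (n : L) * (u : L))

include hn hth in
lemma key_th : (th ^ 2 - 4 * (n : L)) * (th ^ 2 - (n : L)) ^ 2 = -27 * (n : L) ^ 2 * (v : L) ^ 2 := by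
  have hn' : 4 * (n : L) = (u : L) ^ 2 + 27 * (v : L) ^ 2 := by exact_mod_cast congrArg (Int.cast : ℤ → L) hn
  linear_combination (th ^ 3 - 3 * (n : L) * th + (n : L) * (u : L)) * hth - (n : L) ^ 2 * hn'

include hth in
lemma sub_ne (hnr : ∀ t : ℚ, algebraMap ℚ L t ≠ th) (hn0 : n ≠ 0) : th ^ 2 - (n : L) ≠ 0 := by
  intro h
  have h1 : th ^ 2 = (n : L) := sub_eq_zero.1 h
  have hn0' : (n : L) ≠ 0 := Nat.cast_ne_zero.2 hn0
  have h2 : (n : L) * (2 * th + (u : L)) = 0 := by
    linear_combination th * h1 - hth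
  have h3 : 2 * th + (u : L) = 0 := (mul_eq_zero.1 h2).resolve_left hn0'
  apply hnr (-(u : ℚ) / 2)
  rw [map_div₀, map_neg, map_intCast, map_ofNat]
  have h4 : (2 : L) ≠ 0 := two_ne_zero
  field_simp
  linear_combination -h3

include hn hth in
/-- the field is Galois over `ℚ` -/
theorem gal_th (hnr : ∀ t : ℚ, algebraMap ℚ L t ≠ th) (hn0 : n ≠ 0)
    (hd : Module.finrank ℚ L = 3) : IsGalois ℚ L := by
  have hne := sub_ne hth hnr hn0
  have hkey := key_th hn hth
  obtain ⟨R, hR⟩ : ∃ R : L, R = 9 * (n : L) * (v : L) / (th ^ 2 - (n : L)) := ⟨_, rfl⟩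
  have hR2 : R ^ 2 = 12 * (n : L) - 3 * th ^ 2 := by
    rw [hR, div_pow, div_eq_iff (pow_ne_zero 2 hne)]
    linear_combination 3 * hkey
  have h2 : (2 : L) ≠ 0 := two_ne_zero
  set p : ℚ[X] := X ^ 3 - (C (3 * (n : ℚ)) * X + C ((n : ℚ) * (u : ℚ))) with hp
  have hmon : p.Monic := by
    rw [hp]
    apply Monic.sub_of_left (monic_X_pow 3)
    refine lt_of_le_of_lt (degree_linear_le) ?_
    rw [degree_X_pow]
    norm_num
  have hmap : p.map (algebraMap ℚ L) =
      (X - C th) * ((X - C ((-th - R) / 2)) * (X - C ((-th + R) / 2))) := by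
    have e1 : C ((-th - R) / 2) + C ((-th + R) / 2) = C (-th) := by
      rw [← C_add]
      congr 1
      field_simp
      ring
    have e2 : C ((-th - R) / 2) * C ((-th + R) / 2) = C (th ^ 2 - 3 * (n : L)) := by
      rw [← C_mul]
      congr 1
      field_simp
      linear_combination -hR2
    have e3 : p.map (algebraMap ℚ L) = X ^ 3 - (C (3 * (n : L)) * X + C ((n : L) * (u : L))) := by
      rw [hp]
      simp
    have e4 : (X - C ((-th - R) / 2)) * (X - C ((-th + R) / 2)) =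
        X ^ 2 + C th * X + C (th ^ 2 - 3 * (n : L)) := by
      rw [← e2]
      have e5 : C (-th) = -C th := C_neg
      rw [e5] at e1
      linear_combination (-X : L[X]) * e1
    have e6 : C ((n : L) * (u : L)) = C th ^ 3 - C (3 * (n : L)) * C th := by
      rw [← C_pow, ← C_mul, ← C_sub]
      congr 1
      linear_combination -hth
    have e7 : (C (th ^ 2 - 3 * (n : L)) : L[X]) = C th ^ 2 - C (3 * (n : L)) := by
      rw [C_sub, C_pow]
    rw [e3, e4, e6, e7]
    ring
  have hsplit : (p.map (algebraMap ℚ L)).Splits := by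
    rw [hmap]
    exact (Splits.X_sub_C _).mul ((Splits.X_sub_C _).mul (Splits.X_sub_C _))
  have hspl : IsSplittingField ℚ L p := by
    rw [isSplittingField_iff_intermediateField]
    refine ⟨hsplit, ?_⟩
    have h1 := gen_th hnr hd (IntermediateField.adjoin ℚ (p.rootSet L)).toSubfield (by
      apply IntermediateField.subset_adjoin ℚ (p.rootSet L)
      rw [mem_rootSet]
      refine ⟨hmon.ne_zero, ?_⟩
      have h3 : aeval th p = (p.map (algebraMap ℚ L)).eval th := by
        rw [eval_map_algebraMap]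
      rw [h3, hmap]
      simp)
    rw [eq_top_iff]
    intro y _
    have h2 : y ∈ (IntermediateField.adjoin ℚ (p.rootSet L)).toSubfield := by rw [h1]; trivial
    exact h2
  have hnor : Normal ℚ L := Normal.of_isSplittingField p
  exact ⟨⟩

end field

end Pool.Agent.Run7.h741.CC
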