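import Pool.Agent.Run7.h741.CC.A1

/-!
# BSD over cyclic cubic fields, piece A, part 2: points and Tate-Shafarevich groups over `K(∛(nβ))`
-/

set_option autoImplicit false
set_option linter.unusedSectionVars false

open NumberField Polynomial

namespace Pool.Agent.Run7.h741.CC

open Pool.Agent.Y692.QS
open Pool.Agent.Y715.T.Rec (cs)
open Pool.Agent.Y715.T.RecG (Pq)
open Pool.Agent.Y703.CT (Dt pD Ker descK Tw ShK MwK)
open Pool.Agent.R432.C (ED pts cubic gal3 om_K)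
open Pool.Agent.R432.Q (tw_neg)
open Pool.Agent.TH841.NF.D (Sha)
open Pool.Agent.Y715.T.Gi Pool.Agent.Y715.T.Nr Pool.Agent.Y715.T.Df Pool.Agent.Y715.T.Ell

section tw

variable {i₀ : QB} {hi : i₀ ^ 2 + i₀ + 1 = 0}

/-- cubes -/
lemma tw_cube {D β : Ei} (hβ : β ≠ 0) {u : QB} {a : GK i₀ → ZMod 3}
    (hT : Tw hi (β ^ 3 * D) u a) : Tw hi D (u / ev i₀ hi β) a := by
  have h0 := ev_ne hi hβ
  refine ⟨?_, fun σ => ?_⟩
  · rw [div_pow, hT.cube, map_mul, map_pow, mul_div_cancel_left₀ _ (pow_ne_zero 3 h0)]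
  · rw [map_div₀, gk_ev, hT.act σ, mul_div_assoc]

end tw

variable {K : Type} [Field K] [NumberField K] (j : Ei ≃+* 𝓞 K)

/-- the curve of one twist over `K` -/
theorem baseK {J : Type} [Fintype J] [Nonempty J] {π : J → Ei} {e : J → ZMod 3} (hD : Dt π e)
    (hk : Ker π e) (h9 : ¬ (9 : ℤ) ∣ nr (pD π e) - 1) {D β : Ei} (hβ : β ≠ 0)
    (hs : D = β ^ 3 * pD π e ∨ D = β ^ 3 * -pD π e) :
    Finite (ED ((j D : 𝓞 K) : K)).toAffine.Point ∧
    ∀ (n : ℕ) (y : Sha (ED ((j D : 𝓞 K) : K))), 3 ^ n • y = 0 → y = 0 := by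
  have hne0 : pD π e ≠ 0 := Pool.Agent.Y153.CTRAM.ne_zero_of hD
  have hne' : D ≠ 0 := by
    rcases hs with h | h
    · rw [h]
      exact mul_ne_zero (pow_ne_zero 3 hβ) hne0
    · rw [h]
      exact mul_ne_zero (pow_ne_zero 3 hβ) (neg_ne_zero.2 hne0)
  have hdesc : ∀ (i₀ : QB) (hi : i₀ ^ 2 + i₀ + 1 = 0) (u : QB) (b : GK i₀ → ZMod 3),
      Tw hi D u b → ShK hi b ∧ MwK hi b := by
    intro i₀ hi u b hT
    rcases hs with h | h
    · rw [h] at hT
      exact descK hD hk h9 (tw_cube hβ hT)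
    · rw [h] at hT
      exact descK hD hk h9 (tw_neg (tw_cube hβ hT))
  exact ⟨(Pool.Agent.Y696.CTK.parts.mwt Pool.Agent.Y696.CTK.parts.trf K j _ hne'
      fun i₀ hi u b hT => (hdesc i₀ hi u b hT).2).1,
    Pool.Agent.Y696.CTK.parts.sht Pool.Agent.Y696.CTK.parts.trf K j _ hne'
      fun i₀ hi u b hT => (hdesc i₀ hi u b hT).1⟩

/-- the three twists: `q`, `q n β` and `q n β̄` -/
structure Tri (q n : ℕ) (β : Ei) {J : Type} [Fintype J] (π : J → Ei) (e : J → ZMod 3) : Prop where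
  pr : q.Prime
  q9 : q % 9 = 2 ∨ q % 9 = 5
  mul : β * star β = ((n : ℕ) : Ei)
  n3 : n % 3 = 1
  dt : Dt π e
  pd : ((q : ℕ) : Ei) * (n : ℕ) * β = pD π e ∨ ((q : ℕ) : Ei) * (n : ℕ) * β = -pD π e
  ker : Ker π e

section tri

variable {q n : ℕ} {β : Ei} {J : Type} [Fintype J] {π : J → Ei} {e : J → ZMod 3}

lemma Tri.nr_b (T : Tri q n β π e) : nr β = n := by
  have h1 := T.mul
  rw [mul_star, ← Int.cast_natCast (R := Ei)] at h1
  have h2 := congrArg QuadraticAlgebra.re h1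
  rwa [QuadraticAlgebra.re_intCast, QuadraticAlgebra.re_intCast] at h2

lemma Tri.n0 (T : Tri q n β π e) : n ≠ 0 := by
  intro h
  have := T.n3
  rw [h] at this
  omega

lemma Tri.b0 (T : Tri q n β π e) : β ≠ 0 := by
  intro h
  have h1 := T.nr_b
  rw [h] at h1
  have h2 : nr (0 : Ei) = 0 := nr_zero_iff.2 rfl
  rw [h2] at h1
  exact T.n0 (by exact_mod_cast h1.symm)

lemma Tri.nr_pD (T : Tri q n β π e) : nr (pD π e) = (q : ℤ) ^ 2 * (n : ℤ) ^ 3 := by
  have h1 : nr (pD π e) = nr (((q : ℕ) : Ei) * (n : ℕ) * β) := by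
    rcases T.pd with h | h
    · rw [h]
    · rw [h, nr_neg]
  rw [h1, nr_mul, nr_mul, nr_nat, nr_nat, T.nr_b]
  ring

lemma Tri.nine0 (T : Tri q n β π e) :
    ¬ (9 : ℤ) ∣ nr (pD (fun _ : Unit => -((q : ℕ) : Ei)) (fun _ => (1 : ZMod 3))) - 1 := by
  rw [pD_q, nr_neg, nr_nat]
  have h := nine_q T.q9 (n := 1) rfl
  simpa using h

lemma Tri.nine1 (T : Tri q n β π e) : ¬ (9 : ℤ) ∣ nr (pD π e) - 1 := by
  rw [T.nr_pD]
  exact nine_q T.q9 T.n3

lemma Tri.nine2 (T : Tri q n β π e) : ¬ (9 : ℤ) ∣ nr (pD (fun i => star (π i)) e) - 1 := by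
  rw [pD_star, nr_star]
  exact T.nine1

lemma Tri.pd2 (T : Tri q n β π e) :
    ((q : ℕ) : Ei) * (n : ℕ) * star β = pD (fun i => star (π i)) e ∨
    ((q : ℕ) : Ei) * (n : ℕ) * star β = -pD (fun i => star (π i)) e := by
  have h0 : star (((q : ℕ) : Ei) * (n : ℕ) * β) = ((q : ℕ) : Ei) * (n : ℕ) * star β := by
    rw [star_mul', star_mul', star_natCast, star_natCast]
  rw [pD_star, ← h0]
  rcases T.pd with h | h
  · left
    rw [h]
  · right
    rw [h, star_neg]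

end tri

include j in
/-- the points and the Tate-Shafarevich group over `F = K(∛(nβ))` -/
theorem towerF {q n : ℕ} {β : Ei} {J : Type} [Fintype J] [Nonempty J] {π : J → Ei}
    {e : J → ZMod 3} (T : Tri q n β π e)
    {F : Type} [Field F] [NumberField F] [Algebra K F] (x : F)
    (hx : x ^ 3 = algebraMap K F ((j (((n : ℕ) : Ei) * β) : 𝓞 K) : K))
    (hgen : ∀ M : Subfield F, (∀ k : K, algebraMap K F k ∈ M) → x ∈ M → M = ⊤) :
    Finite (ED ((q : ℕ) : F)).toAffine.Point ∧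
    ∀ (k : ℕ) (y : Sha (ED ((q : ℕ) : F))), 3 ^ k • y = 0 → 3 • y = 0 := by
  classical
  have hω := om_K j
  obtain ⟨hfd, hgal⟩ := gal3 (F := F) hω (I := Unit)
    (fun _ => ((j (((n : ℕ) : Ei) * β) : 𝓞 K) : K)) (fun _ => x) (fun _ => hx)
    (fun M h1 h2 => hgen M h1 (h2 ()))
  have hne : ∀ z : Ei, z ≠ 0 → ((j z : 𝓞 K) : K) ≠ 0 := by
    intro z hz h
    have h1 : (j z : 𝓞 K) = 0 := by exact_mod_cast h
    exact hz ((map_eq_zero_iff j j.injective).1 h1)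
  have hn0 : ((n : ℕ) : Ei) ≠ 0 := by
    intro h
    have h1 := T.mul
    rw [h] at h1
    rcases mul_eq_zero.1 h1 with h2 | h2
    · exact T.b0 h2
    · exact T.b0 (by rw [← star_star β, h2, star_zero])
  have hd0 : ((j (((n : ℕ) : Ei) * β) : 𝓞 K) : K) ≠ 0 := hne _ (mul_ne_zero hn0 T.b0)
  have hq0 : ((q : ℕ) : K) ≠ 0 := Nat.cast_ne_zero.2 T.pr.ne_zero
  have eD : algebraMap K F ((q : ℕ) : K) = ((q : ℕ) : F) := map_natCast _ _
  have htw : ∀ t : Unit → ZMod 3,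
      ((j (((q : ℕ) : Ei) * (((n : ℕ) : Ei) * β) ^ (t ()).val) : 𝓞 K) : K) =
      ((q : ℕ) : K) * ∏ i : Unit, ((j (((n : ℕ) : Ei) * β) : 𝓞 K) : K) ^ (t i).val := by
    intro t
    rw [Fintype.prod_unique, map_mul, map_pow, map_natCast]
    push_cast
    rfl
  have hbase : ∀ t : Unit → ZMod 3,
      Finite (ED (((q : ℕ) : K) *
        ∏ i : Unit, ((j (((n : ℕ) : Ei) * β) : 𝓞 K) : K) ^ (t i).val)).toAffine.Point ∧
      ∀ (m : ℕ) (y : Sha (ED (((q : ℕ) : K) *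
        ∏ i : Unit, ((j (((n : ℕ) : Ei) * β) : 𝓞 K) : K) ^ (t i).val))),
        3 ^ m • y = 0 → y = 0 := by
    intro t
    rw [← htw]
    generalize t () = c
    have h3 : c = 0 ∨ c = 1 ∨ c = 2 := by
      clear htw
      revert c
      decide
    rcases h3 with rfl | rfl | rfl
    · refine baseK j (dt_q T.pr T.q9) ker_q T.nine0 (one_ne_zero) ?_
      right
      rw [pD_q, neg_neg, ZMod.val_zero, pow_zero, mul_one, one_pow, one_mul]
    · refine baseK j T.dt T.ker T.nine1 (one_ne_zero) ?_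
      have v1 : (1 : ZMod 3).val = 1 := rfl
      rw [v1, pow_one, one_pow, one_mul, one_mul, ← mul_assoc]
      exact T.pd
    · refine baseK j (dt_star T.dt) (ker_star T.dt T.ker) T.nine2 T.b0 ?_
      have v2 : (2 : ZMod 3).val = 2 := rfl
      have e2 : ((q : ℕ) : Ei) * (((n : ℕ) : Ei) * β) ^ 2 =
          β ^ 3 * (((q : ℕ) : Ei) * (n : ℕ) * star β) := by
        linear_combination (-((q : ℕ) : Ei) * (n : ℕ) * β ^ 2) * T.mul
      rw [v2, e2]
      rcases T.pd2 with h | h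
      · left; rw [h]
      · right; rw [h]
  refine ⟨?_, ?_⟩
  · rw [← eD]
    exact pts hω (fun _ : Unit => ((j (((n : ℕ) : Ei) * β) : 𝓞 K) : K)) (fun _ => x)
      (fun _ => hd0) (fun _ => hx) (fun M h1 h2 => hgen M h1 (h2 ())) hq0 fun t => (hbase t).1
  · rw [← eD]
    intro k y hy
    have h1 := cubic hω (fun _ : Unit => ((j (((n : ℕ) : Ei) * β) : 𝓞 K) : K)) (fun _ => x)
      (fun _ => hd0) (fun _ => hx) (fun M h1 h2 => hgen M h1 (h2 ())) hq0
      (fun t => (hbase t).2) k y hy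
    rw [Fintype.card_unique, pow_one] at h1
    exact h1

end Pool.Agent.Run7.h741.CC
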