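import Pool.Agent.Run7.h741.CC.A2

/-!
# BSD over cyclic cubic fields, piece A, part 3: the places of `L` and of `F = L(ω)`
-/

set_option autoImplicit false
set_option linter.unusedSectionVars false

open NumberField IsDedekindDomain Filter Complex
open scoped Topology Classical Pointwise

namespace Pool.Agent.Run7.h741.CC

open Pool.Agent.Y692.QS hiding chi
open Pool.Agent.Y715.T.Rec (cs nn)
open Pool.Agent.Y715.T.RecG (Pq cs_spec)
open Pool.Agent.Y696.CT (pq_star cs_star_int cs_inert inert int_ndvd im_star_ne cs_mul')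
open Pool.Agent.R432.C (pq_dvd)
open Pool.Agent.R432.V
open Pool.Agent.Y405.CT (cs_starG)

section gal

variable {L : Type} [Field L] [NumberField L]

/-- in a Galois extension of `ℚ` the places above `p` have the same norm -/
lemma qv_const [IsGalois ℚ L] {p : ℕ} (hp : p.Prime) {u u' : HeightOneSpectrum (𝓞 L)}
    (hu : ((p : ℕ) : 𝓞 L) ∈ u.asIdeal) (hu' : ((p : ℕ) : 𝓞 L) ∈ u'.asIdeal) : qv u = qv u' := by
  have hσι : ∀ (σ : L ≃ₐ[ℚ] L) (a : ℤ), σ • ((a : ℤ) : 𝓞 L) = ((a : ℤ) : 𝓞 L) := by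
    intro σ a
    apply RingOfIntegers.ext
    change σ (((a : ℤ) : 𝓞 L) : L) = _
    simp
  have hcomm : SMulCommClass (L ≃ₐ[ℚ] L) ℤ (𝓞 L) := by
    constructor
    intro g a y
    rw [zsmul_eq_mul, zsmul_eq_mul, smul_mul', hσι]
  have hinv : Algebra.IsInvariant ℤ (𝓞 L) (L ≃ₐ[ℚ] L) := by
    constructor
    intro b hb
    obtain ⟨y, hy⟩ := (IsGalois.mem_range_algebraMap_iff_fixed (F := ℚ) (b : L)).2 (fun σ =>
      congrArg (fun z : 𝓞 L => (z : L)) (hb σ))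
    have h1 : IsIntegral ℤ y := by
      have h2 : IsIntegral ℤ (algebraMap ℚ L y) := by rw [hy]; exact b.2
      exact (isIntegral_algHom_iff ((algebraMap ℚ L).toIntAlgHom) (algebraMap ℚ L).injective).1 h2
    obtain ⟨m, hm⟩ := IsIntegrallyClosed.isIntegral_iff.1 h1
    refine ⟨m, ?_⟩
    apply RingOfIntegers.ext
    rw [← hy, ← hm]
    simp
  have hpi : Prime (p : ℤ) := Nat.prime_iff_prime_int.1 hp
  have hunder : ∀ {u : HeightOneSpectrum (𝓞 L)}, ((p : ℕ) : 𝓞 L) ∈ u.asIdeal →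
      u.asIdeal.under ℤ = Ideal.span {(p : ℤ)} := by
    intro u hu
    have hupr := u.isPrime
    have hmax : (Ideal.span {(p : ℤ)}).IsMaximal :=
      ((Ideal.span_singleton_prime hpi.ne_zero).2 hpi).isMaximal (by
        rw [Ne, Ideal.span_singleton_eq_bot]; exact hpi.ne_zero)
    symm
    refine hmax.eq_of_le ?_ ?_
    · exact (inferInstance : (u.asIdeal.under ℤ).IsPrime).ne_top
    · rw [Ideal.span_singleton_le_iff_mem, Ideal.mem_comap]
      simpa using hu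
  have hupr := u.isPrime
  have hupr' := u'.isPrime
  obtain ⟨g, hg⟩ := Algebra.IsInvariant.exists_smul_of_under_eq ℤ (𝓞 L) (L ≃ₐ[ℚ] L)
    u.asIdeal u'.asIdeal ((hunder hu).trans (hunder hu').symm)
  unfold qv
  rw [hg]
  refine Nat.card_congr (Ideal.quotientEquiv u.asIdeal (g • u.asIdeal)
    (MulSemiringAction.toRingEquiv (L ≃ₐ[ℚ] L) (𝓞 L) g) ?_).toEquiv
  rfl

end gal

variable {K L F : Type} [Field K] [NumberField K] [Field L] [NumberField L] [Field F]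
  [NumberField F] [Algebra K F] [Algebra L F] {j : Ei ≃+* 𝓞 K}

/-- `F = K(∛d) = L(ω)`, `L` cyclic cubic -/
structure Cx (L : Type) [Field L] [NumberField L] [Algebra L F] (j : Ei ≃+* 𝓞 K) (d : Ei)
    (x : 𝓞 F) : Prop where
  gal : IsGalois K F
  gal' : IsGalois L F
  galQ : IsGalois ℚ L
  deg : Module.finrank K F = 3
  deg' : Module.finrank L F = 2
  cube : x ^ 3 = io F j d
  gen : ∀ M : Subfield F, (∀ k : K, algebraMap K F k ∈ M) → (x : F) ∈ M → M = ⊤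
  gen' : ∀ g : F ≃ₐ[L] F, g • io F j w = io F j w → g = 1

/-- the order of the Frobenius at `α` of `K(∛d)` -/
noncomputable def f1 (d : Ei) (α : Ei) : ℕ := fo (fun _ : Unit => d) α

lemma f1_zero {d α : Ei} (h : cs α d = 0) : f1 d α = 1 := by
  unfold f1 fo
  rw [if_pos fun _ => h]

lemma f1_one {d α : Ei} (h : cs α d ≠ 0) : f1 d α = 3 := by
  unfold f1 fo
  rw [if_neg fun h' => h (h' ())]

lemma f1_cases (d α : Ei) : f1 d α = 1 ∨ f1 d α = 3 := by
  by_cases h : cs α d = 0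
  · exact Or.inl (f1_zero h)
  · exact Or.inr (f1_one h)

/-- the cubic symbol of `d̄` -/
lemma cs_bar {d : Ei} {n : ℕ} (hd : d * star d = ((n : ℕ) : Ei) ^ 3) {α : Ei} (hα : Pq α)
    (h : ¬ α ∣ ((n : ℕ) : Ei)) : ¬ α ∣ d ∧ ¬ α ∣ star d ∧ cs α (star d) = -cs α d := by
  have h1 : ¬ α ∣ d * star d := by
    rw [hd]
    exact fun h2 => h (hα.prime.dvd_of_dvd_pow h2)
  have h2 : ¬ α ∣ d := fun h3 => h1 (h3.mul_right _)
  have h3 : ¬ α ∣ star d := fun h3 => h1 (h3.mul_left _)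
  refine ⟨h2, h3, ?_⟩
  have h4 := cs_mul' hα h2 h3
  rw [hd, Pool.Agent.Y715.T.RecG.cs_pow hα.prime hα.norm h] at h4
  have h5 : ((3 : ℕ) : ZMod 3) = 0 := rfl
  rw [h5, zero_mul] at h4
  exact (neg_eq_of_add_eq_zero_right h4.symm).symm

lemma cs_bar' {d : Ei} {n : ℕ} (hd : d * star d = ((n : ℕ) : Ei) ^ 3) {α : Ei} (hα : Pq α)
    (h : ¬ α ∣ ((n : ℕ) : Ei)) : cs (star α) d = cs α d := by
  obtain ⟨h1, h2, h3⟩ := cs_bar hd hα h
  have h4 := cs_starG hα h2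
  rw [star_star, h3, neg_neg] at h4
  exact h4

lemma f1_star {d : Ei} {n : ℕ} (hd : d * star d = ((n : ℕ) : Ei) ^ 3) {α : Ei} (hα : Pq α)
    (h : ¬ α ∣ ((n : ℕ) : Ei)) : f1 d (star α) = f1 d α := by
  by_cases h1 : cs α d = 0
  · rw [f1_zero h1, f1_zero (by rw [cs_bar' hd hα h, h1])]
  · rw [f1_one h1, f1_one (by rw [cs_bar' hd hα h]; exact h1)]

theorem places1 {d : Ei} {n : ℕ} (hd : d * star d = ((n : ℕ) : Ei) ^ 3) {x : 𝓞 F}
    (C : Cx L j d x) {p : ℕ} (hp : p.Prime) (h1 : p % 3 = 1) {α : Ei} (hα : Pq α) (hn : nr α = p)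
    (hS : ¬ p ∣ n) {D : ℕ} (hD : ¬ p ∣ D) {f : ℕ} (hf : f = f1 d α) :
    (Finite {u : HeightOneSpectrum (𝓞 L) // ((p : ℕ) : 𝓞 L) ∈ u.asIdeal} ∧
    Nat.card {u : HeightOneSpectrum (𝓞 L) // ((p : ℕ) : 𝓞 L) ∈ u.asIdeal} * f = 3) ∧
    ∀ u : HeightOneSpectrum (𝓞 L), ((p : ℕ) : 𝓞 L) ∈ u.asIdeal → qv u = p ^ f ∧
      Tr ((D : ℕ) : 𝓞 L) u (toC (w ^ (-cs α ((D : ℕ) : Ei)).val * α) ^ f) := by
  have hgal := C.gal
  have hgal' := C.gal'
  have hα' := pq_star hα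
  have hn' : nr (star α) = p := by rw [nr_star, hn]
  have hfo' : f1 d (star α) = f := by
    rw [hf]
    exact f1_star hd hα (ndvd_nat hp hn hS)
  obtain ⟨k1, k2, -⟩ := cs_bar hd hα (ndvd_nat hp hn hS)
  obtain ⟨k1', k2', -⟩ := cs_bar hd hα' (ndvd_nat hp hn' hS)
  obtain ⟨s1, s2⟩ := splitV (F := F) j (fun _ : Unit => d) (fun _ => x) (fun _ => C.cube)
    (fun M h1 h2 => C.gen M h1 (h2 ())) hα (fun _ => k1)
  obtain ⟨s3, s4⟩ := splitV (F := F) j (fun _ : Unit => d) (fun _ => x) (fun _ => C.cube)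
    (fun M h1 h2 => C.gen M h1 (h2 ())) hα' (fun _ => k1')
  change ∀ v : HeightOneSpectrum (𝓞 F), io F j α ∈ v.asIdeal →
      Nat.card (𝓞 F ⧸ v.asIdeal) = (nr α).natAbs ^ f1 d α at s1
  change ∀ v : HeightOneSpectrum (𝓞 F), io F j (star α) ∈ v.asIdeal →
      Nat.card (𝓞 F ⧸ v.asIdeal) = (nr (star α)).natAbs ^ f1 d (star α) at s3
  change _ * f1 d α = _ at s2
  change _ * f1 d (star α) = _ at s4
  rw [← hf, C.deg] at s2
  rw [hfo', C.deg] at s4
  have hnat : (nr α).natAbs = p := by rw [hn]; exact Int.natAbs_natCast p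
  have hnat' : (nr (star α)).natAbs = p := by rw [hn']; exact Int.natAbs_natCast p
  have hodd : f % 2 = 1 ∧ 0 < f := by
    rw [hf]
    rcases f1_cases d α with h | h <;> rw [h] <;> norm_num
  have hmul : io F j α * io F j (star α) = ((p : ℕ) : 𝓞 F) := by
    rw [← map_mul, mul_star, hn, Int.cast_natCast, io_nat]
  have hne : α ≠ star α := (im_star_ne hp hn).symm
  -- the places of `F`
  have hcase : ∀ v : HeightOneSpectrum (𝓞 F), ((p : ℕ) : 𝓞 F) ∈ v.asIdeal ↔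
      io F j α ∈ v.asIdeal ∨ io F j (star α) ∈ v.asIdeal := by
    intro v
    rw [← hmul]
    constructor
    · exact v.isPrime.mem_or_mem
    · rintro (h | h)
      · exact v.asIdeal.mul_mem_right _ h
      · exact v.asIdeal.mul_mem_left _ h
  have hqv : ∀ v : HeightOneSpectrum (𝓞 F), ((p : ℕ) : 𝓞 F) ∈ v.asIdeal → qv v = p ^ f ∧
      Tr ((D : ℕ) : 𝓞 F) v (toC (w ^ (-cs α ((D : ℕ) : Ei)).val * α) ^ f) := by
    intro v hv
    rcases (hcase v).1 hv with h | h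
    · have h5 := s1 v h
      rw [← hf] at h5
      have h6 := tr_at (io F j) hα h (ndvd_nat hp hn hD) h5
      rw [hnat] at h5
      rw [io_nat] at h6
      exact ⟨h5, h6⟩
    · have h5 := s3 v h
      rw [hfo'] at h5
      have h6 := tr_at (io F j) hα' h (ndvd_nat hp hn' hD) h5
      rw [hnat'] at h5
      rw [io_nat] at h6
      refine ⟨h5, ?_⟩
      have h7 := Tr_conj h6
      have h8 : (starRingEnd ℂ) (toC (w ^ (-cs (star α) ((D : ℕ) : Ei)).val * star α) ^ f) =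
          toC (w ^ (-cs α ((D : ℕ) : Ei)).val * α) ^ f := by
        rw [map_pow, ← Pool.Agent.Y696.CTK.toC_star', star_mul', star_star,
          cs_star_nat hα (ndvd_nat hp hn hD), neg_neg]
        have hst : star (w ^ (cs α ((D : ℕ) : Ei)).val : Ei) =
            w ^ (-cs α ((D : ℕ) : Ei)).val := by
          generalize cs α ((D : ℕ) : Ei) = c
          revert c
          decide
        rw [hst]
      rwa [h8] at h7
  -- count
  have hAne : Nat.card {v : HeightOneSpectrum (𝓞 F) // io F j α ∈ v.asIdeal} ≠ 0 := by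
    intro h0
    rw [h0, zero_mul] at s2
    exact absurd s2.symm (by norm_num)
  have hBne : Nat.card {v : HeightOneSpectrum (𝓞 F) // io F j (star α) ∈ v.asIdeal} ≠ 0 := by
    intro h0
    rw [h0, zero_mul] at s4
    exact absurd s4.symm (by norm_num)
  have hfA : Finite {v : HeightOneSpectrum (𝓞 F) // io F j α ∈ v.asIdeal} :=
    Nat.finite_of_card_ne_zero hAne
  have hfB : Finite {v : HeightOneSpectrum (𝓞 F) // io F j (star α) ∈ v.asIdeal} :=
    Nat.finite_of_card_ne_zero hBne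
  have hsplit : {v : HeightOneSpectrum (𝓞 F) | ((p : ℕ) : 𝓞 F) ∈ v.asIdeal} =
      {v | io F j α ∈ v.asIdeal} ∪ {v | io F j (star α) ∈ v.asIdeal} := by
    ext v
    exact hcase v
  have hdis : Disjoint {v : HeightOneSpectrum (𝓞 F) | io F j α ∈ v.asIdeal}
      {v | io F j (star α) ∈ v.asIdeal} := by
    rw [Set.disjoint_left]
    intro v hv1 hv2
    exact hne (pq_dvd hα hα' ((mem_iff (io F j) hα hv1 _).1 hv2))
  have hfinA : {v : HeightOneSpectrum (𝓞 F) | io F j α ∈ v.asIdeal}.Finite :=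
    Set.finite_coe_iff.1 hfA
  have hfinB : {v : HeightOneSpectrum (𝓞 F) | io F j (star α) ∈ v.asIdeal}.Finite :=
    Set.finite_coe_iff.1 hfB
  have hcnt : Nat.card {v : HeightOneSpectrum (𝓞 F) // ((p : ℕ) : 𝓞 F) ∈ v.asIdeal} =
      Nat.card {v : HeightOneSpectrum (𝓞 F) // io F j α ∈ v.asIdeal} +
      Nat.card {v : HeightOneSpectrum (𝓞 F) // io F j (star α) ∈ v.asIdeal} := by
    have h5 := Set.ncard_union_eq hdis hfinA hfinB
    rw [← hsplit] at h5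
    exact h5
  have hfinP : Finite {v : HeightOneSpectrum (𝓞 F) // ((p : ℕ) : 𝓞 F) ∈ v.asIdeal} := by
    have h5 : {v : HeightOneSpectrum (𝓞 F) | ((p : ℕ) : 𝓞 F) ∈ v.asIdeal}.Finite := by
      rw [hsplit]
      exact hfinA.union hfinB
    exact h5.to_subtype
  obtain ⟨hfu, hsum⟩ := card_sig (L := L) (F := F) p
  have h3u : ∀ u : HeightOneSpectrum (𝓞 L), ((p : ℕ) : 𝓞 L) ∈ u.asIdeal → (3 : 𝓞 L) ∉ u.asIdeal := by
    intro u hu h3
    have h5 : IsCoprime (3 : ℤ) (p : ℤ) := by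
      rw [Int.isCoprime_iff_gcd_eq_one]
      have h6 : Nat.Coprime 3 p := (Nat.coprime_primes Nat.prime_three hp).2 (by omega)
      exact_mod_cast h6
    obtain ⟨a, b, hab⟩ := h5
    apply u.isPrime.ne_top
    rw [Ideal.eq_top_iff_one]
    have h7 : ((a * 3 + b * p : ℤ) : 𝓞 L) = 1 := by rw [hab]; norm_num
    rw [← h7]
    push_cast
    exact u.asIdeal.add_mem (u.asIdeal.mul_mem_left _ h3) (u.asIdeal.mul_mem_left _ hu)
  have hone : ∀ u : HeightOneSpectrum (𝓞 L), ((p : ℕ) : 𝓞 L) ∈ u.asIdeal →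
      Nat.card {v : HeightOneSpectrum (𝓞 F) // Ov u v} = 2 ∧ qv u = p ^ f ∧
      Tr ((D : ℕ) : 𝓞 L) u (toC (w ^ (-cs α ((D : ℕ) : Ei)).val * α) ^ f) := by
    intro u hu
    obtain ⟨v, hv⟩ := exists_over (F := F) u
    obtain ⟨h5, h6⟩ := hqv v ((Ov_nat hv p).2 hu)
    rcases quad C.deg' (io_w (F := F) (j := j)) C.gen' (h3u u hu) hv with ⟨h7, h8⟩ | ⟨h7, h8⟩
    · exact ⟨h8, by rw [← h7, h5], Tr_of hv h7 h6⟩
    · exfalso
      rw [h5] at h7
      exact not_sq hp hodd.1 h7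
  refine ⟨⟨Finite.of_fintype _, ?_⟩, fun u hu => (hone u hu).2⟩
  rw [Finset.sum_congr rfl fun u _ => (hone u.1 u.2).1, Finset.sum_const, Finset.card_univ,
    ← Nat.card_eq_fintype_card, hcnt, smul_eq_mul] at hsum
  have h5 : Nat.card {u : HeightOneSpectrum (𝓞 L) // ((p : ℕ) : 𝓞 L) ∈ u.asIdeal} * 2 * f =
      3 + 3 := by
    rw [← hsum, add_mul, s2, s4]
  have h6 : Nat.card {u : HeightOneSpectrum (𝓞 L) // ((p : ℕ) : 𝓞 L) ∈ u.asIdeal} * f * 2 =
      3 * 2 := by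
    rw [mul_right_comm, h5]
  exact Nat.eq_of_mul_eq_mul_right (by norm_num) h6

theorem places2 {d : Ei} {n : ℕ} (hd : d * star d = ((n : ℕ) : Ei) ^ 3) {x : 𝓞 F}
    (C : Cx L j d x) {p : ℕ} (hp : p.Prime) (h2 : p % 3 = 2) (hS : ¬ p ∣ n) {f : ℕ}
    (hf : f = f1 d (-((p : ℕ) : Ei))) :
    (Finite {u : HeightOneSpectrum (𝓞 L) // ((p : ℕ) : 𝓞 L) ∈ u.asIdeal} ∧
    Nat.card {u : HeightOneSpectrum (𝓞 L) // ((p : ℕ) : 𝓞 L) ∈ u.asIdeal} * f = 3) ∧
    ∀ u : HeightOneSpectrum (𝓞 L), ((p : ℕ) : 𝓞 L) ∈ u.asIdeal → qv u = p ^ f := by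
  have hfact := Fact.mk hp
  have hgal := C.gal
  have hgal' := C.gal'
  have hgalQ := C.galQ
  have hα : Pq (-((p : ℕ) : Ei)) := inert hp h2
  have hnr : nr (-((p : ℕ) : Ei)) = (p : ℤ) ^ 2 := by rw [nr_neg, nr_nat]
  have hnat : (nr (-((p : ℕ) : Ei))).natAbs = p ^ 2 := by
    rw [hnr, Int.natAbs_pow, Int.natAbs_natCast]
  have hnd : ∀ m : ℕ, ¬ p ∣ m → ¬ -((p : ℕ) : Ei) ∣ ((m : ℕ) : Ei) := by
    intro m hm h
    rw [neg_dvd] at h
    exact hm (nat_dvd_nat h)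
  obtain ⟨k1, k2, -⟩ := cs_bar hd hα (hnd n hS)
  obtain ⟨s1, s2⟩ := splitV (F := F) j (fun _ : Unit => d) (fun _ => x) (fun _ => C.cube)
    (fun M h1 h2 => C.gen M h1 (h2 ())) hα (fun _ => k1)
  change ∀ v : HeightOneSpectrum (𝓞 F), io F j (-((p : ℕ) : Ei)) ∈ v.asIdeal →
      Nat.card (𝓞 F ⧸ v.asIdeal) = (nr (-((p : ℕ) : Ei))).natAbs ^ f1 d (-((p : ℕ) : Ei)) at s1
  change _ * f1 d (-((p : ℕ) : Ei)) = _ at s2
  rw [← hf, C.deg] at s2
  have hmem : ∀ v : HeightOneSpectrum (𝓞 F), io F j (-((p : ℕ) : Ei)) ∈ v.asIdeal ↔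
      ((p : ℕ) : 𝓞 F) ∈ v.asIdeal := by
    intro v
    rw [map_neg, neg_mem_iff, io_nat]
  have hcnt : Nat.card {v : HeightOneSpectrum (𝓞 F) // ((p : ℕ) : 𝓞 F) ∈ v.asIdeal} * f =
      3 := by
    rw [← s2]
    congr 1
    exact Nat.card_congr (Equiv.subtypeEquivRight fun v => (hmem v).symm)
  have hfinP : Finite {v : HeightOneSpectrum (𝓞 F) // ((p : ℕ) : 𝓞 F) ∈ v.asIdeal} :=
    Nat.finite_of_card_ne_zero (by
      intro h0
      rw [h0, zero_mul] at hcnt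
      norm_num at hcnt)
  obtain ⟨hfu, hsum⟩ := card_sig (L := L) (F := F) p
  have h3u : ∀ u : HeightOneSpectrum (𝓞 L), ((p : ℕ) : 𝓞 L) ∈ u.asIdeal → (3 : 𝓞 L) ∉ u.asIdeal := by
    intro u hu h3
    have h5 : IsCoprime (3 : ℤ) (p : ℤ) := by
      rw [Int.isCoprime_iff_gcd_eq_one]
      have h6 : Nat.Coprime 3 p := (Nat.coprime_primes Nat.prime_three hp).2 (by omega)
      exact_mod_cast h6
    obtain ⟨a, b, hab⟩ := h5
    apply u.isPrime.ne_top
    rw [Ideal.eq_top_iff_one]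
    have h7 : ((a * 3 + b * p : ℤ) : 𝓞 L) = 1 := by rw [hab]; norm_num
    rw [← h7]
    push_cast
    exact u.asIdeal.add_mem (u.asIdeal.mul_mem_left _ h3) (u.asIdeal.mul_mem_left _ hu)
  have hqv : ∀ v : HeightOneSpectrum (𝓞 F), ((p : ℕ) : 𝓞 F) ∈ v.asIdeal → qv v = p ^ (2 * f) := by
    intro v hv
    have h5 := s1 v ((hmem v).2 hv)
    rw [← hf, hnat, ← pow_mul] at h5
    exact h5
  -- one place above each place
  have halt : ∀ u : HeightOneSpectrum (𝓞 L), ((p : ℕ) : 𝓞 L) ∈ u.asIdeal →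
      (qv u = p ^ (2 * f) ∧ Nat.card {v : HeightOneSpectrum (𝓞 F) // Ov u v} = 2) ∨
      (qv u = p ^ f ∧ Nat.card {v : HeightOneSpectrum (𝓞 F) // Ov u v} = 1) := by
    intro u hu
    obtain ⟨v, hv⟩ := exists_over (F := F) u
    have h5 := hqv v ((Ov_nat hv p).2 hu)
    rcases quad C.deg' (io_w (F := F) (j := j)) C.gen' (h3u u hu) hv with ⟨h7, h8⟩ | ⟨h7, h8⟩
    · left
      exact ⟨by rw [← h7, h5], h8⟩
    · right
      rw [h5, mul_comm, pow_mul] at h7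
      exact ⟨(Nat.pow_left_injective (n := 2) (by norm_num) h7).symm, h8⟩
  have hodd : Nat.card {v : HeightOneSpectrum (𝓞 F) // ((p : ℕ) : 𝓞 F) ∈ v.asIdeal} % 2 = 1 := by
    rcases f1_cases d (-((p : ℕ) : Ei)) with h | h <;> rw [← hf] at h <;> rw [h] at hcnt <;> omega
  have hp1 := hp.one_lt
  have hfpos : 0 < f := by
    rcases f1_cases d (-((p : ℕ) : Ei)) with h | h <;> rw [← hf] at h <;> omega
  have hne : p ^ (2 * f) ≠ p ^ f := by
    intro h
    have := Nat.pow_right_injective hp.two_le h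
    omega
  have hone : ∀ u : HeightOneSpectrum (𝓞 L), ((p : ℕ) : 𝓞 L) ∈ u.asIdeal →
      qv u = p ^ f ∧ Nat.card {v : HeightOneSpectrum (𝓞 F) // Ov u v} = 1 := by
    by_contra hcon
    push Not at hcon
    obtain ⟨u0, hu0, h0⟩ := hcon
    have h1 : qv u0 = p ^ (2 * f) := by
      rcases halt u0 hu0 with h | h
      · exact h.1
      · exact absurd h.2 (h0 h.1)
    have h4 : ∀ u : HeightOneSpectrum (𝓞 L), ((p : ℕ) : 𝓞 L) ∈ u.asIdeal →
        Nat.card {v : HeightOneSpectrum (𝓞 F) // Ov u v} = 2 := by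
      intro u hu
      rcases halt u hu with h | h
      · exact h.2
      · exfalso
        have h5 := qv_const hp hu hu0
        rw [h.1, h1] at h5
        exact hne h5.symm
    rw [Finset.sum_congr rfl fun u _ => h4 u.1 u.2, Finset.sum_const, smul_eq_mul] at hsum
    omega
  refine ⟨⟨Finite.of_fintype _, ?_⟩, fun u hu => (hone u hu).1⟩
  rw [Finset.sum_congr rfl fun u _ => (hone u.1 u.2).2, Finset.sum_const, Finset.card_univ,
    ← Nat.card_eq_fintype_card, smul_eq_mul, mul_one] at hsum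
  rw [← hsum]
  exact hcnt

end Pool.Agent.Run7.h741.CC
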