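import Pool.Agent.Run7.h741.CC.A1
import Pool.Agent.Y333.CX.LAM
import Pool.Agent.Y715.T.Rs

/-!
# The dictionary of the cyclic cubic fields, part 1: arithmetic in `ℤ[ω]`
-/

set_option autoImplicit false

namespace Pool.Agent.Run7.h741.CC

open Pool.Agent.Y692.QS
open Pool.Agent.Y715.T.Rs (pidEi)
open Pool.Agent.Y715.T.RecG (Pq)
open Pool.Agent.Y703.CX (pp)
open Pool.Agent.Y333.CX (pp_spec)

section fac

lemma cop3 : IsCoprime (3 : Ei) 1 := isCoprime_one_right

/-- `1` modulo `3` -/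
lemma one3 {x y : Ei} (hx : (3 : Ei) ∣ x - 1) (h : (3 : Ei) ∣ x * y - 1) : (3 : Ei) ∣ y - 1 := by
  have e : y - 1 = (x * y - 1) - (x - 1) * y := by ring
  rw [e]
  exact dvd_sub h (Dvd.dvd.mul_right hx y)

lemma mul3 {x y : Ei} (hx : (3 : Ei) ∣ x - 1) (hy : (3 : Ei) ∣ y - 1) : (3 : Ei) ∣ x * y - 1 := by
  have e : x * y - 1 = (x - 1) * y + (y - 1) := by ring
  rw [e]
  exact dvd_add (Dvd.dvd.mul_right hx y) hy

lemma star3 {x : Ei} (hx : (3 : Ei) ∣ x - 1) : (3 : Ei) ∣ star x - 1 := by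
  obtain ⟨y, hy⟩ := hx
  refine ⟨star y, ?_⟩
  have h := congrArg star hy
  rw [star_sub, star_mul', star_one] at h
  rw [h]
  congr 1

lemma nr_pow (x : Ei) (k : ℕ) : nr (x ^ k) = nr x ^ k := by
  induction k with
  | zero => rw [pow_zero, pow_zero]; exact nr_one
  | succ k ih => rw [pow_succ, nr_mul, ih, pow_succ]

lemma nr_dvd {x y : Ei} (h : x ∣ y) : nr x ∣ nr y := by
  obtain ⟨z, rfl⟩ := h
  rw [nr_mul]
  exact dvd_mul_right _ _

/-- an inert prime number -/
lemma inert_dvd {p : ℕ} (hp : p.Prime) (h2 : p % 3 = 2) {x : Ei} (h : (p : ℤ) ∣ nr x) :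
    (((p : ℕ) : Ei)) ∣ x := by
  have hx : (p : ℤ) ∣ x.re ^ 2 - x.re * x.im + x.im ^ 2 := h
  have hpi : Prime (p : ℤ) := Nat.prime_iff_prime_int.1 hp
  have : Fact p.Prime := ⟨hp⟩
  by_contra hc
  -- a root of the polynomial in the field with `p` elements
  have h3 : ¬ ((p : ℤ) ∣ x.re ∧ (p : ℤ) ∣ x.im) := by
    intro h'
    apply hc
    have := int_dvd.2 h'
    exact_mod_cast this
  have hz : ((x.re : ZMod p) ^ 2 - x.re * x.im + (x.im : ZMod p) ^ 2) = 0 := by
    have := (ZMod.intCast_zmod_eq_zero_iff_dvd _ p).2 hx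
    push_cast at this
    exact this
  have key : ∀ a b : ZMod p, a ^ 2 - a * b + b ^ 2 = 0 → b ≠ 0 → False := by
    intro a b hab hb
    obtain ⟨t, ht⟩ : ∃ t : ZMod p, t = -(a / b) := ⟨_, rfl⟩
    have h1 : t ^ 2 + t + 1 = 0 := by
      rw [ht]
      field_simp
      linear_combination hab
    have h2' : t ^ 3 = 1 := by linear_combination (t - 1) * h1
    have hp3 : p ≠ 3 := by rintro rfl; omega
    have h4 : t ≠ 1 := by
      rintro rfl
      have h5 : ((3 : ℕ) : ZMod p) = 0 := by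
        push_cast
        linear_combination h1
      rw [ZMod.natCast_eq_zero_iff] at h5
      exact hp3 ((Nat.prime_dvd_prime_iff_eq hp Nat.prime_three).1 h5)
    have h5 : orderOf t = 3 := orderOf_eq_prime h2' h4
    have ht0 : t ≠ 0 := by
      rintro rfl
      norm_num at h2'
    have h6 : t ^ (p - 1) = 1 := ZMod.pow_card_sub_one_eq_one ht0
    have h7 := orderOf_dvd_of_pow_eq_one h6
    rw [h5] at h7
    have := hp.two_le
    omega
  by_cases hb : (x.im : ZMod p) = 0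
  · have ha : (x.re : ZMod p) = 0 := by
      rw [hb] at hz
      have : (x.re : ZMod p) ^ 2 = 0 := by linear_combination hz
      exact pow_eq_zero_iff (two_ne_zero) |>.1 this
    exact h3 ⟨(ZMod.intCast_zmod_eq_zero_iff_dvd _ p).1 ha, (ZMod.intCast_zmod_eq_zero_iff_dvd _ p).1 hb⟩
  · exact key _ _ hz hb

/-- one step of the factorisation at a split prime -/
lemma stepS {p m₁ : ℕ} (hp : p.Prime) {π a : Ei} (hπ : Pq π) (hn : nr π = p)
    (ha : nr a = ((p * m₁ : ℕ) : ℤ) ^ 3) (h3 : (3 : Ei) ∣ a - 1) :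
    (∃ ρ a₁ : Ei, (3 : Ei) ∣ ρ - 1 ∧ a = ρ ^ 3 * a₁ ∧ nr a₁ = (m₁ : ℤ) ^ 3 ∧ (3 : Ei) ∣ a₁ - 1) ∨
    (¬ p ∣ m₁ ∧ ∃ ρ z : Ei, nr ρ = p ∧ (3 : Ei) ∣ ρ - 1 ∧ a = ((p : ℕ) : Ei) * ρ * z ∧
      nr z = (m₁ : ℤ) ^ 3 ∧ (3 : Ei) ∣ z - 1) := by
  have hp0 : (p : ℤ) ≠ 0 := by exact_mod_cast hp.ne_zero
  have hsπ : (3 : Ei) ∣ star π - 1 := star3 hπ.three
  have hns : nr (star π) = p := by rw [nr_star, hn]
  have hmul : π * star π = ((p : ℕ) : Ei) := by rw [mul_star, hn, Int.cast_natCast]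
  have hps : Prime (star π) := Pool.Agent.Y696.CT.pq_star hπ |>.prime
  by_cases c1 : π ^ 3 ∣ a
  · obtain ⟨a₁, rfl⟩ := c1
    refine Or.inl ⟨π, a₁, hπ.three, rfl, ?_, ?_⟩
    · rw [nr_mul, nr_pow, hn] at ha
      have h4 : (p : ℤ) ^ 3 ≠ 0 := pow_ne_zero 3 hp0
      apply mul_left_cancel₀ h4
      rw [ha]
      push_cast
      ring
    · refine one3 ?_ h3
      rw [pow_succ, pow_two]
      exact mul3 (mul3 hπ.three hπ.three) hπ.three
  by_cases c2 : star π ^ 3 ∣ a
  · obtain ⟨a₁, rfl⟩ := c2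
    refine Or.inl ⟨star π, a₁, hsπ, rfl, ?_, ?_⟩
    · rw [nr_mul, nr_pow, hns] at ha
      have h4 : (p : ℤ) ^ 3 ≠ 0 := pow_ne_zero 3 hp0
      apply mul_left_cancel₀ h4
      rw [ha]
      push_cast
      ring
    · refine one3 ?_ h3
      rw [pow_succ, pow_two]
      exact mul3 (mul3 hsπ hsπ) hsπ
  -- the remaining case
  have hpp : ∀ x : Ei, (p : ℤ) ∣ nr x → π ∣ x ∨ star π ∣ x := by
    intro x hx
    have h4 : π ∣ x * star x := by
      rw [mul_star]
      obtain ⟨k, hk⟩ := hx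
      rw [hk]
      refine ⟨star π * (k : Ei), ?_⟩
      rw [← mul_assoc, hmul]
      push_cast
      rfl
    rcases hπ.prime.dvd_or_dvd h4 with h | h
    · exact Or.inl h
    · right
      obtain ⟨y, hy⟩ := h
      refine ⟨star y, ?_⟩
      have := congrArg star hy
      rw [star_star, star_mul'] at this
      exact this
  have haa : π ^ 3 ∣ a * star a := by
    rw [mul_star, ha]
    refine ⟨star π ^ 3 * ((m₁ : ℕ) : Ei) ^ 3, ?_⟩
    rw [← mul_assoc, ← mul_pow, hmul]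
    push_cast
    ring
  have hd2 : star π ∣ a := by
    by_contra hc
    have hc' : ¬ π ∣ star a := by
      rintro ⟨y, hy⟩
      apply hc
      refine ⟨star y, ?_⟩
      have := congrArg star hy
      rw [star_star, star_mul'] at this
      exact this
    apply c1
    rw [mul_comm] at haa
    exact hπ.prime.pow_dvd_of_dvd_mul_left 3 hc' haa
  have haa' : star π ^ 3 ∣ a * star a := by
    rw [mul_star, ha]
    refine ⟨π ^ 3 * ((m₁ : ℕ) : Ei) ^ 3, ?_⟩
    rw [← mul_assoc, ← mul_pow, mul_comm (star π), hmul]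
    push_cast
    ring
  have hd1 : π ∣ a := by
    by_contra hc
    have hc' : ¬ star π ∣ star a := by
      rintro ⟨y, hy⟩
      apply hc
      refine ⟨star y, ?_⟩
      have := congrArg star hy
      rw [star_star, star_mul', star_star] at this
      exact this
    apply c2
    rw [mul_comm] at haa'
    exact hps.pow_dvd_of_dvd_mul_left 3 hc' haa'
  -- `π` and its conjugate are not associated
  have hna : ¬ star π ∣ π := by
    rintro ⟨u, hu⟩
    have h4 : nr u = 1 := by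
      have h5 := congrArg nr hu
      rw [nr_mul, hn, hns] at h5
      have h6 : (p : ℤ) * nr u = p * 1 := by rw [← h5, mul_one]
      exact mul_left_cancel₀ hp0 h6
    have h5 := congrArg ns hu
    rw [ns_mul, ns_unit (isUnit_iff.2 h4), mul_one, ns_fix hπ.three, ns_fix hsπ] at h5
    exact Pool.Agent.Y696.CT.im_star_ne hp hn h5.symm
  obtain ⟨x, rfl⟩ := hd1
  have hd3 : star π ∣ x := (hps.dvd_or_dvd hd2).resolve_left hna
  obtain ⟨y, rfl⟩ := hd3
  have hy : nr y = (p : ℤ) * (m₁ : ℤ) ^ 3 := by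
    rw [nr_mul, nr_mul, hn, hns] at ha
    have h4 : (p : ℤ) * p ≠ 0 := mul_ne_zero hp0 hp0
    apply mul_left_cancel₀ h4
    push_cast at ha
    linear_combination ha
  have hfin : ∀ ρ z : Ei, Pq ρ → nr ρ = p → (ρ = π ∨ ρ = star π) → y = ρ * z →
      (¬ p ∣ m₁ ∧ ∃ ρ z : Ei, nr ρ = p ∧ (3 : Ei) ∣ ρ - 1 ∧
        π * (star π * y) = ((p : ℕ) : Ei) * ρ * z ∧
        nr z = (m₁ : ℤ) ^ 3 ∧ (3 : Ei) ∣ z - 1) := by
    intro ρ z hρ hnρ hρπ hyz
    have e1 : π * (star π * y) = ((p : ℕ) : Ei) * ρ * z := by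
      rw [← mul_assoc, hmul, hyz, mul_assoc]
    have hz : nr z = (m₁ : ℤ) ^ 3 := by
      rw [hyz, nr_mul, hnρ] at hy
      exact mul_left_cancel₀ hp0 hy
    refine ⟨fun hpm => ?_, ρ, z, hnρ, hρ.three, e1, hz, ?_⟩
    · -- `p` divides the norm of `z` three times
      obtain ⟨k, rfl⟩ := hpm
      have hsr : Prime (star ρ) := (Pool.Agent.Y696.CT.pq_star hρ).prime
      have hmulρ : ρ * star ρ = ((p : ℕ) : Ei) := by rw [mul_star, hnρ, Int.cast_natCast]
      -- the two factors in terms of `ρ`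
      have c1' : ¬ ρ ^ 3 ∣ π * (star π * y) := by
        rcases hρπ with rfl | rfl
        · exact c1
        · exact c2
      have c2' : ¬ star ρ ^ 3 ∣ π * (star π * y) := by
        rcases hρπ with rfl | rfl
        · exact c2
        · rw [star_star]
          exact c1
      have h5 : ρ ^ 3 ∣ z * star z := by
        rw [mul_star, hz]
        refine ⟨star ρ ^ 3 * ((k : ℕ) : Ei) ^ 3, ?_⟩
        rw [← mul_assoc, ← mul_pow, hmulρ]
        push_cast
        ring
      have h6 : ¬ ρ ∣ z := by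
        rintro ⟨t, rfl⟩
        apply c1'
        rw [e1, ← hmulρ]
        exact ⟨star ρ * t, by ring⟩
      have h7 := hρ.prime.pow_dvd_of_dvd_mul_left 3 h6 h5
      have h8 : star ρ ^ 3 ∣ z := by
        obtain ⟨t, ht⟩ := h7
        refine ⟨star t, ?_⟩
        have := congrArg star ht
        rw [star_star, star_mul', star_pow] at this
        exact this
      apply c2'
      rw [e1]
      exact Dvd.dvd.mul_left h8 _
    · have h5 : ((p : ℕ) : Ei) * ρ * z = (ρ * star ρ * ρ) * z := by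
        rw [mul_star, hnρ, Int.cast_natCast]
      rw [e1, h5] at h3
      exact one3 (mul3 (mul3 hρ.three (star3 hρ.three)) hρ.three) h3
  rcases hpp y ⟨_, hy⟩ with ⟨z, hz⟩ | ⟨z, hz⟩
  · exact Or.inr (hfin π z hπ hn (Or.inl rfl) hz)
  · exact Or.inr (hfin (star π) z (Pool.Agent.Y696.CT.pq_star hπ) hns (Or.inr rfl) hz)

/-- one step of the factorisation at an inert prime -/
lemma stepI {p m₁ : ℕ} (hp : p.Prime) (h2 : p % 3 = 2) {a : Ei}
    (ha : nr a = ((p * m₁ : ℕ) : ℤ) ^ 3) (h3 : (3 : Ei) ∣ a - 1) :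
    ∃ m₂ : ℕ, m₁ = p * m₂ ∧ ∃ ρ a₁ : Ei, (3 : Ei) ∣ ρ - 1 ∧ a = ρ ^ 3 * a₁ ∧
      nr a₁ = (m₂ : ℤ) ^ 3 ∧ (3 : Ei) ∣ a₁ - 1 := by
  have hp0 : (p : ℤ) ≠ 0 := by exact_mod_cast hp.ne_zero
  have hpi : Prime (p : ℤ) := Nat.prime_iff_prime_int.1 hp
  obtain ⟨b, rfl⟩ := inert_dvd hp h2 (x := a) (by
    rw [ha]
    exact dvd_pow (by push_cast; exact dvd_mul_right _ _) (by norm_num))
  have hb : nr b = (p : ℤ) * (m₁ : ℤ) ^ 3 := by
    rw [nr_mul, nr_nat] at ha
    have h4 : (p : ℤ) ^ 2 ≠ 0 := pow_ne_zero 2 hp0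
    apply mul_left_cancel₀ h4
    push_cast at ha
    linear_combination ha
  obtain ⟨c, rfl⟩ := inert_dvd hp h2 (x := b) ⟨_, hb⟩
  have hc : (p : ℤ) * nr c = (m₁ : ℤ) ^ 3 := by
    rw [nr_mul, nr_nat] at hb
    apply mul_left_cancel₀ hp0
    linear_combination hb
  have h5 : (p : ℤ) ∣ (m₁ : ℤ) := hpi.dvd_of_dvd_pow ⟨_, hc.symm⟩
  have h5' : p ∣ m₁ := by exact_mod_cast h5
  obtain ⟨m₂, rfl⟩ := h5'
  have hc' : nr c = (p : ℤ) ^ 2 * (m₂ : ℤ) ^ 3 := by
    apply mul_left_cancel₀ hp0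
    push_cast at hc
    linear_combination hc
  obtain ⟨d, rfl⟩ := inert_dvd hp h2 (x := c) ⟨(p : ℤ) * (m₂ : ℤ) ^ 3, by rw [hc']; ring⟩
  have hd : nr d = (m₂ : ℤ) ^ 3 := by
    rw [nr_mul, nr_nat] at hc'
    exact mul_left_cancel₀ (pow_ne_zero 2 hp0) hc'
  have h6 : (3 : Ei) ∣ -((p : ℕ) : Ei) - 1 := by
    obtain ⟨k, hk⟩ : ∃ k : ℕ, p = 3 * k + 2 := ⟨p / 3, by omega⟩
    refine ⟨-((k : ℕ) : Ei) - 1, ?_⟩
    rw [hk]
    push_cast
    ring
  refine ⟨m₂, rfl, -((p : ℕ) : Ei), -d, h6, by ring, by rw [nr_neg, hd], ?_⟩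
  have e : ((p : ℕ) : Ei) * (((p : ℕ) : Ei) * (((p : ℕ) : Ei) * d)) =
      (-((p : ℕ) : Ei) * -((p : ℕ) : Ei) * -((p : ℕ) : Ei)) * -d := by ring
  rw [e] at h3
  exact one3 (mul3 (mul3 h6 h6) h6) h3

/-- **The factorisation**: an element `≡ 1` modulo `3` whose norm is a cube -/
theorem fac (m : ℕ) : ∀ a : Ei, nr a = (m : ℤ) ^ 3 → (3 : Ei) ∣ a - 1 →
    ∃ (c β : Ei) (n : ℕ), n ∣ m ∧ Squarefree n ∧ nr β = n ∧ (3 : Ei) ∣ β - 1 ∧ c ≠ 0 ∧
      a = c ^ 3 * ((n : ℕ) : Ei) * β := by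
  induction m using Nat.strong_induction_on with
  | _ m ih =>
    intro a ha h3
    have ha0 : a ≠ 0 := by
      rintro rfl
      rw [zero_sub, dvd_neg] at h3
      have h4 := nr_dvd h3
      rw [nr_one] at h4
      have h5 : nr (3 : Ei) = 9 := by decide
      rw [h5] at h4
      norm_num at h4
    have hm0 : m ≠ 0 := by
      rintro rfl
      rw [Nat.cast_zero, zero_pow (by norm_num)] at ha
      exact ha0 (nr_zero_iff.1 ha)
    by_cases hm1 : m = 1
    · subst hm1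
      rw [Nat.cast_one, one_pow] at ha
      have h4 : a = 1 := by
        rw [← ns_fix h3]
        exact ns_unit (isUnit_iff.2 ha)
      refine ⟨1, 1, 1, dvd_rfl, squarefree_one, by rw [nr_one]; rfl, by rw [sub_self]; exact dvd_zero _,
        one_ne_zero, ?_⟩
      rw [h4]
      push_cast
      ring
    obtain ⟨p, hp, hpm⟩ := Nat.exists_prime_and_dvd hm1
    obtain ⟨m₁, rfl⟩ := hpm
    have hm10 : m₁ ≠ 0 := fun h => hm0 (by rw [h, mul_zero])
    have hp3 : p ≠ 3 := by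
      rintro rfl
      have h4 : ¬ (3 : ℤ) ∣ nr a := by
        obtain ⟨t, ht⟩ := h3
        have h5 : a = 1 + 3 * t := by rw [← ht]; ring
        rw [h5]
        have e1 : (1 + 3 * t : Ei).re = 1 + 3 * t.re := by
          rw [QuadraticAlgebra.re_add, mul_re]
          show 1 + (3 * t.re - 0 * t.im) = _
          ring
        have e2 : (1 + 3 * t : Ei).im = 3 * t.im := by
          rw [QuadraticAlgebra.im_add, mul_im]
          show 0 + (3 * t.im + 0 * t.re - 0 * t.im) = _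
          ring
        unfold nr
        rw [e1, e2]
        rintro ⟨k, hk⟩
        have : (1 : ℤ) = 3 * (k - 2 * t.re - 3 * t.re ^ 2 + t.im + 3 * t.re * t.im -
          3 * t.im ^ 2) := by linear_combination hk
        omega
      apply h4
      rw [ha]
      exact dvd_pow (by push_cast; exact dvd_mul_right _ _) (by norm_num)
    have hm : p % 3 = 1 ∨ p % 3 = 2 := by
      have : p % 3 ≠ 0 := fun h => hp3 ((Nat.prime_dvd_prime_iff_eq Nat.prime_three hp).1
        (Nat.dvd_of_mod_eq_zero h)).symm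
      omega
    rcases hm with hm | hm
    · obtain ⟨hπ, hn⟩ := pp_spec hp hm
      rcases stepS hp hπ hn ha h3 with ⟨ρ, a₁, k1, k2, k3, k4⟩ | ⟨hpm, ρ, z, k0, k1, k2, k3, k4⟩
      · obtain ⟨c, β, n, j1, j2, j3, j4, j5, j6⟩ := ih m₁ (by
          have := hp.one_lt
          nlinarith [Nat.pos_of_ne_zero hm10]) a₁ k3 k4
        refine ⟨ρ * c, β, n, j1.trans (dvd_mul_left _ _), j2, j3, j4, mul_ne_zero ?_ j5, ?_⟩
        · rintro rfl
          apply ha0
          rw [k2]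
          ring
        · rw [k2, j6]
          ring
      · obtain ⟨c, β, n, j1, j2, j3, j4, j5, j6⟩ := ih m₁ (by
          have := hp.one_lt
          nlinarith [Nat.pos_of_ne_zero hm10]) z k3 k4
        have hpn : ¬ p ∣ n := fun h => hpm (h.trans j1)
        refine ⟨c, ρ * β, p * n, Nat.mul_dvd_mul_left p j1, ?_, ?_, mul3 k1 j4, j5, ?_⟩
        · rw [Nat.squarefree_mul ((Nat.Prime.coprime_iff_not_dvd hp).2 hpn)]
          exact ⟨hp.squarefree, j2⟩
        · rw [nr_mul, k0, j3]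
          push_cast
          ring
        · rw [k2, j6]
          push_cast
          ring
    · obtain ⟨m₂, rfl, ρ, a₁, k1, k2, k3, k4⟩ := stepI hp hm ha h3
      obtain ⟨c, β, n, j1, j2, j3, j4, j5, j6⟩ := ih m₂ (by
        have h1 := hp.one_lt
        have h2 : 0 < m₂ := Nat.pos_of_ne_zero (fun h => hm10 (by rw [h, mul_zero]))
        calc m₂ < p * m₂ := by nlinarith
          _ ≤ p * (p * m₂) := Nat.le_mul_of_pos_left _ (by omega)) a₁ k3 k4
      refine ⟨ρ * c, β, n, (j1.trans (dvd_mul_left _ _)).trans (dvd_mul_left _ _), j2, j3, j4,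
        mul_ne_zero ?_ j5, ?_⟩
      · rintro rfl
        apply ha0
        rw [k2]
        ring
      · rw [k2, j6]
        ring

/-- units of `ℤ[ω]` have cube `±1` -/
lemma unit_cube {u : Ei} (hu : nr u = 1) : u ^ 3 = 1 ∨ u ^ 3 = -1 := by
  have h := ep_unit (isUnit_iff.2 hu)
  have h1 : (u.re : ZMod 3) ^ 2 - (u.re : ZMod 3) * (u.im : ZMod 3) + (u.im : ZMod 3) ^ 2 = 1 := by
    have h2 : u.re ^ 2 - u.re * u.im + u.im ^ 2 = 1 := hu
    exact_mod_cast congrArg (Int.cast : ℤ → ZMod 3) h2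
  rw [← h]
  unfold ep
  generalize (u.re : ZMod 3) = x at h1 ⊢
  generalize (u.im : ZMod 3) = y at h1 ⊢
  revert x y
  decide

/-- **Uniqueness**: two elements with the same squarefree norm which differ by a cube -/
theorem uniq {n : ℕ} (hsq : Squarefree n) {b b' k l : Ei} (hb : nr b = n) (hb' : nr b' = n)
    (hl : l ≠ 0) (h : k ^ 3 * b = l ^ 3 * b') : b = b' ∨ b = -b' := by
  have hn0 : n ≠ 0 := hsq.ne_zero
  have hb0 : b ≠ 0 := by
    rintro rfl
    have : nr (0 : Ei) = 0 := nr_zero_iff.2 rfl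
    rw [this] at hb
    exact hn0 (by exact_mod_cast hb.symm)
  have hb0' : b' ≠ 0 := by
    rintro rfl
    have : nr (0 : Ei) = 0 := nr_zero_iff.2 rfl
    rw [this] at hb'
    exact hn0 (by exact_mod_cast hb'.symm)
  have hk : k ≠ 0 := by
    rintro rfl
    rw [zero_pow (by norm_num), zero_mul] at h
    exact mul_ne_zero (pow_ne_zero 3 hl) hb0' h.symm
  -- the coprime parts
  obtain ⟨g, k', l', hg, hk', hl', hco⟩ : ∃ g k' l' : Ei, g ≠ 0 ∧ k = g * k' ∧ l = g * l' ∧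
      IsCoprime k' l' := by
    obtain ⟨g, hg⟩ := (IsPrincipalIdealRing.principal (Ideal.span {k, l} : Ideal Ei))
    have hg' : (Ideal.span {k, l} : Ideal Ei) = Ideal.span {g} := hg
    have h1 : k ∈ (Ideal.span {g} : Ideal Ei) := by
      rw [← hg']
      exact Ideal.subset_span (Set.mem_insert _ _)
    have h2 : l ∈ (Ideal.span {g} : Ideal Ei) := by
      rw [← hg']
      exact Ideal.subset_span (Set.mem_insert_of_mem _ rfl)
    obtain ⟨k', hk'⟩ := Ideal.mem_span_singleton.1 h1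
    obtain ⟨l', hl'⟩ := Ideal.mem_span_singleton.1 h2
    have hg0 : g ≠ 0 := by
      rintro rfl
      apply hk
      rw [hk', zero_mul]
    refine ⟨g, k', l', hg0, hk', hl', ?_⟩
    have h3 : g ∈ (Ideal.span {k, l} : Ideal Ei) := by
      rw [hg']
      exact Ideal.mem_span_singleton_self g
    obtain ⟨x, y, hxy⟩ := Ideal.mem_span_pair.1 h3
    refine ⟨x, y, ?_⟩
    apply mul_left_cancel₀ hg0
    rw [mul_one]
    calc g * (x * k' + y * l') = x * (g * k') + y * (g * l') := by ring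
      _ = x * k + y * l := by rw [← hk', ← hl']
      _ = g := hxy
  have h' : k' ^ 3 * b = l' ^ 3 * b' := by
    rw [hk', hl'] at h
    apply mul_left_cancel₀ (pow_ne_zero 3 hg)
    linear_combination h
  have hco3 : IsCoprime (k' ^ 3) (l' ^ 3) := hco.pow
  have key : ∀ x c : Ei, nr c = n → x ^ 3 ∣ c → nr x = 1 := by
    intro x c hc hx
    have h1 := nr_dvd hx
    rw [nr_pow, hc] at h1
    have h2 : ((nr x).natAbs) ^ 3 ∣ n := by
      have := Int.natAbs_dvd_natAbs.2 h1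
      rwa [Int.natAbs_pow, Int.natAbs_natCast] at this
    have h3 : (nr x).natAbs * (nr x).natAbs ∣ n := by
      refine Dvd.dvd.trans ⟨(nr x).natAbs, by ring⟩ h2
    have h4 := Nat.isUnit_iff.1 (hsq _ h3)
    have h5 := nr_nonneg x
    omega
  have hku := key k' b' hb' (hco3.dvd_of_dvd_mul_left ⟨b, h'.symm⟩)
  have hlu := key l' b hb (hco3.symm.dvd_of_dvd_mul_left ⟨b', h'⟩)
  rcases unit_cube hku with h1 | h1 <;> rcases unit_cube hlu with h2 | h2 <;> rw [h1, h2] at h'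
  · left
    linear_combination h'
  · right
    linear_combination h'
  · right
    linear_combination -h'
  · left
    linear_combination -h'

end fac

end Pool.Agent.Run7.h741.CC
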