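import Pool.Agent.Run7.h741.CC.Dic1

/-!
# The dictionary of the cyclic cubic fields, part 2: every cyclic cubic field unramified at `3`
is generated by a root of `x³ = 3 n x + n u`
-/

set_option autoImplicit false

open NumberField

namespace Pool.Agent.Run7.h741.CC

open Pool.Agent.Y692.QS

/-- an automorphism of order three -/
structure Cyc (F : Type) [Field F] [NumberField F] (s : F ≃ₐ[ℚ] F) : Prop where
  cube : ∀ x, s (s (s x)) = x
  tr : ∀ x, algebraMap ℚ F (Algebra.trace ℚ F x) = x + s x + s (s x)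

theorem exists_cyc (F : Type) [Field F] [NumberField F] (hd : Module.finrank ℚ F = 3)
    [IsGalois ℚ F] : ∃ s : F ≃ₐ[ℚ] F, Cyc F s := by
  classical
  have hc : Nat.card (F ≃ₐ[ℚ] F) = 3 := by rw [IsGalois.card_aut_eq_finrank, hd]
  have : Fact (Nat.Prime 3) := ⟨Nat.prime_three⟩
  have hcy : IsCyclic (F ≃ₐ[ℚ] F) := isCyclic_of_prime_card hc
  obtain ⟨g, hg⟩ := hcy.exists_generator
  have hord : orderOf g = 3 := by rw [orderOf_eq_card_of_forall_mem_zpowers hg, hc]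
  have h3 : g ^ 3 = 1 := by rw [← hord]; exact pow_orderOf_eq_one g
  have hg1 : g ≠ 1 := by
    rintro rfl
    rw [orderOf_one] at hord
    omega
  have hg2 : g * g ≠ 1 := by
    intro h
    have h4 : g ^ 2 = 1 := by rw [pow_two, h]
    have := orderOf_dvd_of_pow_eq_one h4
    rw [hord] at this
    omega
  have hgg : g ≠ g * g := by
    intro h
    exact hg1 (mul_left_cancel (a := g) (by rw [mul_one]; exact h.symm))
  have huniv : (Finset.univ : Finset (F ≃ₐ[ℚ] F)) = {1, g, g * g} := by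
    symm
    apply Finset.eq_univ_of_card
    rw [Fintype.card_eq_nat_card, hc, Finset.card_insert_of_notMem, Finset.card_pair hgg]
    rw [Finset.mem_insert, Finset.mem_singleton, not_or]
    exact ⟨hg1.symm, hg2.symm⟩
  refine ⟨g, fun x => ?_, fun x => ?_⟩
  · have h4 := congrArg (fun f : F ≃ₐ[ℚ] F => f x) h3
    simpa [pow_succ] using h4
  · rw [trace_eq_sum_automorphisms, huniv, Finset.sum_insert, Finset.sum_pair hgg]
    · simp only [AlgEquiv.one_apply, AlgEquiv.mul_apply]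
      ring
    · rw [Finset.mem_insert, Finset.mem_singleton, not_or]
      exact ⟨hg1.symm, hg2.symm⟩

/-- the cube of an element -/
lemma cube_mk (x y : ℤ) : (⟨x, y⟩ : Ei) ^ 3 = ⟨x ^ 3 + y ^ 3 - 3 * x * y ^ 2, 3 * x ^ 2 * y - 3 * x * y ^ 2⟩ := by
  have e : (⟨x, y⟩ : Ei) ^ 3 = ⟨x, y⟩ * ⟨x, y⟩ * ⟨x, y⟩ := by ring
  rw [e]
  ext
  · simp only [mul_re, mul_im]
    ring
  · simp only [mul_re, mul_im]
    ring

section cyc

variable {F : Type} [Field F] [NumberField F] {s : F ≃ₐ[ℚ] F}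

lemma Cyc.fix (C : Cyc F s) {x : F} (h : s x = x) : ∃ q : ℚ, x = (q : F) := by
  have h1 := C.tr x
  rw [h, h] at h1
  refine ⟨Algebra.trace ℚ F x / 3, ?_⟩
  have h2 : (3 : F) ≠ 0 := three_ne_zero
  rw [Rat.cast_div, Rat.cast_ofNat, eq_div_iff h2]
  rw [eq_ratCast] at h1
  linear_combination -h1

lemma int_rat {q : ℚ} (h : IsIntegral ℤ (q : F)) : ∃ k : ℤ, q = k := by
  have h1 : IsIntegral ℤ (algebraMap ℚ F q) := by rwa [eq_ratCast]
  have h2 : IsIntegral ℤ q := (isIntegral_algebraMap_iff (algebraMap ℚ F).injective).1 h1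
  obtain ⟨k, hk⟩ := IsIntegrallyClosed.isIntegral_iff.1 h2
  refine ⟨k, ?_⟩
  rw [← hk]
  simp

lemma Cyc.int (C : Cyc F s) {x : F} (h : s x = x) (hx : IsIntegral ℤ x) : ∃ k : ℤ, x = (k : F) := by
  obtain ⟨q, hq⟩ := C.fix h
  obtain ⟨k, hk⟩ := int_rat (F := F) (q := q) (by rw [← hq]; exact hx)
  refine ⟨k, ?_⟩
  rw [hq, hk]
  push_cast
  rfl

lemma int_s {x : F} (hx : IsIntegral ℤ x) : IsIntegral ℤ (s x) := hx.map (s.toAlgHom.restrictScalars ℤ)

/-- an element of trace one -/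
theorem tr_one (hd : Module.finrank ℚ F = 3) (h3 : ¬ (3 : ℤ) ∣ discr F) :
    ∃ η : 𝓞 F, Algebra.trace ℤ (𝓞 F) η = 1 := by
  by_contra hc
  push Not at hc
  have h1 : Algebra.trace ℤ (𝓞 F) 1 = 3 := by
    have h2 := Algebra.trace_algebraMap_of_basis (RingOfIntegers.basis F) (1 : ℤ)
    rw [map_one] at h2
    rw [h2, ← Module.finrank_eq_card_basis (RingOfIntegers.basis F), RingOfIntegers.rank, hd]
    simp
  have h2 : ∀ x : 𝓞 F, (3 : ℤ) ∣ Algebra.trace ℤ (𝓞 F) x := by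
    intro x
    by_contra h
    have h4 : IsCoprime (3 : ℤ) (Algebra.trace ℤ (𝓞 F) x) :=
      (Int.prime_three.coprime_iff_not_dvd).2 h
    obtain ⟨a, b, hab⟩ := h4
    apply hc (a • (1 : 𝓞 F) + b • x)
    rw [map_add, map_zsmul, map_zsmul, h1, smul_eq_mul, smul_eq_mul]
    exact hab
  apply h3
  have h4 : ((discr F : ℤ) : ZMod 3) = 0 := by
    unfold discr
    rw [Algebra.discr_def]
    show (Int.castRingHom (ZMod 3)) (Matrix.det _) = 0
    rw [RingHom.map_det]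
    have h5 : (Int.castRingHom (ZMod 3)).mapMatrix
        (Algebra.traceMatrix ℤ (RingOfIntegers.basis F)) = 0 := by
      ext i j
      rw [RingHom.mapMatrix_apply, Matrix.map_apply, Algebra.traceMatrix_apply,
        Algebra.traceForm_apply, Matrix.zero_apply, Int.coe_castRingHom,
        ZMod.intCast_zmod_eq_zero_iff_dvd]
      exact h2 _
    rw [h5]
    have h6 : 0 < Fintype.card (Module.Free.ChooseBasisIndex ℤ (𝓞 F)) := by
      rw [← Module.finrank_eq_card_basis (RingOfIntegers.basis F), RingOfIntegers.rank, hd]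
      norm_num
    have h7 := Fintype.card_pos_iff.1 h6
    exact Matrix.det_zero
  exact (ZMod.intCast_zmod_eq_zero_iff_dvd _ 3).1 h4

/-- **Existence.** -/
theorem exist (hd : Module.finrank ℚ F = 3) [IsGalois ℚ F] (h3 : ¬ (3 : ℤ) ∣ discr F) :
    ∃ (u v n : ℕ) (th : F), 0 < u ∧ 0 < v ∧ 4 * n = u ^ 2 + 27 * v ^ 2 ∧ Squarefree n ∧
      th ^ 3 = 3 * (n : F) * th + (n : F) * (u : F) := by
  obtain ⟨s, C⟩ := exists_cyc F hd
  obtain ⟨y, hy⟩ := tr_one hd h3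
  obtain ⟨η, hη⟩ : ∃ η : F, η = (y : F) := ⟨_, rfl⟩
  have iη : IsIntegral ℤ η := by rw [hη]; exact RingOfIntegers.isIntegral_coe y
  have iη' : IsIntegral ℤ (s η) := int_s iη
  have iη'' : IsIntegral ℤ (s (s η)) := int_s iη'
  have ht : η + s η + s (s η) = 1 := by
    rw [← C.tr, hη, ← Algebra.coe_trace_int, hy]
    simp
  obtain ⟨A, hA⟩ : ∃ A : F, A = η - s (s η) := ⟨_, rfl⟩
  obtain ⟨B, hB⟩ : ∃ B : F, B = s η - s (s η) := ⟨_, rfl⟩
  have iA : IsIntegral ℤ A := by rw [hA]; exact iη.sub iη''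
  have iB : IsIntegral ℤ B := by rw [hB]; exact iη'.sub iη''
  have sA : s A = B - A := by
    rw [hA, map_sub, C.cube, hB]
    ring
  have sB : s B = -A := by
    rw [hB, map_sub, C.cube, hA]
    ring
  -- the coefficients of the cube of the resolvent
  obtain ⟨t, ht1⟩ := C.int (x := A ^ 2 * B - A * B ^ 2) (by
    simp only [map_sub, map_mul, map_pow, sA, sB]
    ring) (((iA.pow 2).mul iB).sub (iA.mul (iB.pow 2)))
  obtain ⟨m, hm⟩ := C.int (x := A ^ 2 - A * B + B ^ 2) (by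
    simp only [map_sub, map_add, map_mul, map_pow, sA, sB]
    ring) (((iA.pow 2).sub (iA.mul iB)).add (iB.pow 2))
  have hAB : A + B = 1 - 3 * s (s η) := by
    rw [hA, hB]
    linear_combination ht
  obtain ⟨r, hr⟩ := C.int (x := -3 * s (s η) + 9 * s (s η) ^ 2 - 9 * s (s η) ^ 3 -
      A * B * (A + B) - A * B ^ 2) (by
    have h2 : (3 : F) * (-3 * s (s η) + 9 * s (s η) ^ 2 - 9 * s (s η) ^ 3 -
      A * B * (A + B) - A * B ^ 2) = A ^ 3 + B ^ 3 - 3 * A * B ^ 2 - 1 := by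
      have e : (A + B) ^ 3 = (1 - 3 * s (s η)) ^ 3 := by rw [hAB]
      linear_combination -e
    have h3 : (3 : F) ≠ 0 := three_ne_zero
    apply mul_left_cancel₀ h3
    have h5 : s (3 * (-3 * s (s η) + 9 * s (s η) ^ 2 - 9 * s (s η) ^ 3 -
      A * B * (A + B) - A * B ^ 2)) = 3 * (-3 * s (s η) + 9 * s (s η) ^ 2 - 9 * s (s η) ^ 3 -
      A * B * (A + B) - A * B ^ 2) := by
      rw [h2]
      simp only [map_sub, map_add, map_mul, map_pow, map_one, map_ofNat, sA, sB]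
      ring
    rw [map_mul, map_ofNat] at h5
    exact h5) (by
    have i3 : ∀ k : ℤ, IsIntegral ℤ ((k : F)) := fun k => by
      have := isIntegral_algebraMap (R := ℤ) (A := F) (x := k)
      simpa using this
    have j3 := i3 (-3)
    have j9 := i3 9
    push_cast at j3 j9
    exact ((((j3.mul iη'').add (j9.mul (iη''.pow 2))).sub (j9.mul (iη''.pow 3))).sub
      ((iA.mul iB).mul (iA.add iB))).sub (iA.mul (iB.pow 2)))
  have hr2 : A ^ 3 + B ^ 3 - 3 * A * B ^ 2 = 1 + 3 * (r : F) := by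
    have e : (A + B) ^ 3 = (1 - 3 * s (s η)) ^ 3 := by rw [hAB]
    rw [← hr]
    linear_combination e
  -- the element of `ℤ[ω]`
  obtain ⟨a, ha⟩ : ∃ a : Ei, a = ⟨1 + 3 * r, 3 * t⟩ := ⟨_, rfl⟩
  have hnr : nr a = m ^ 3 := by
    have h1 : ((nr a : ℤ) : F) = ((m ^ 3 : ℤ) : F) := by
      rw [ha]
      unfold nr
      push_cast
      rw [← hm, ← hr2, ← ht1]
      ring
    exact_mod_cast h1
  have h3a : (3 : Ei) ∣ a - 1 := by
    refine ⟨⟨r, t⟩, ?_⟩
    rw [ha]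
    ext
    · rw [QuadraticAlgebra.re_sub, mul_re]
      show 1 + 3 * r - 1 = 3 * r - 0 * t
      ring
    · rw [QuadraticAlgebra.im_sub, mul_im]
      show 3 * t - 0 = 3 * t + 0 * r - 0 * t
      ring
  have hm0 : 0 ≤ m := by
    have h1 := nr_nonneg a
    rw [hnr] at h1
    by_contra h
    push Not at h
    have : m ^ 3 < 0 := Odd.pow_neg (by decide) h
    omega
  obtain ⟨M, rfl⟩ := Int.eq_ofNat_of_zero_le hm0
  obtain ⟨c, β, n, -, hsq, hβ, hβ3, hc0, hfac⟩ := fac M a hnr h3a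
  obtain ⟨N, hN⟩ : ∃ N : ℤ, N = nr c := ⟨_, rfl⟩
  have hN0 : (N : F) ≠ 0 := by
    rw [hN, Int.cast_ne_zero]
    exact fun h => hc0 (nr_zero_iff.1 h)
  obtain ⟨b₁, hb₁⟩ : ∃ b₁ : ℤ, β.im = 3 * b₁ := by
    obtain ⟨z, hz⟩ := hβ3
    refine ⟨z.im, ?_⟩
    have := congrArg QuadraticAlgebra.im hz
    rw [QuadraticAlgebra.im_sub, mul_im] at this
    have e : β.im - 0 = 3 * z.im + 0 * z.re - 0 * z.im := this
    linarith
  obtain ⟨b₀, hb₀⟩ : ∃ b₀ : ℤ, β.re = 1 + 3 * b₀ := by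
    obtain ⟨z, hz⟩ := hβ3
    refine ⟨z.re, ?_⟩
    have := congrArg QuadraticAlgebra.re hz
    rw [QuadraticAlgebra.re_sub, mul_re] at this
    have e : β.re - 1 = 3 * z.re - 0 * z.im := this
    linarith
  -- the element `w = (A + B ω) / c`
  obtain ⟨c₀, hc₀⟩ : ∃ c₀ : ℤ, c₀ = c.re := ⟨_, rfl⟩
  obtain ⟨c₁, hc₁⟩ : ∃ c₁ : ℤ, c₁ = c.im := ⟨_, rfl⟩
  have hNc : N = c₀ ^ 2 - c₀ * c₁ + c₁ ^ 2 := by rw [hN, hc₀, hc₁]; rfl
  have hNF : (N : F) = (c₀ : F) ^ 2 - c₀ * c₁ + (c₁ : F) ^ 2 := by rw [hNc]; push_cast; ring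
  have hst : star c = ⟨c₀ - c₁, -c₁⟩ := by
    ext
    · rw [star_re, hc₀, hc₁]
    · rw [star_im, hc₁]
  have hfac2 : a * star c ^ 3 = (((N ^ 3 * n : ℤ)) : Ei) * β := by
    have h1 : c * star c = ((N : ℤ) : Ei) := by rw [mul_star, hN]
    calc a * star c ^ 3 = (c * star c) ^ 3 * ((n : ℕ) : Ei) * β := by rw [hfac]; ring
      _ = _ := by rw [h1]; push_cast; ring
  rw [hst, cube_mk] at hfac2
  obtain ⟨p, hp⟩ : ∃ p : ℤ, p = (c₀ - c₁) ^ 3 + (-c₁) ^ 3 - 3 * (c₀ - c₁) * (-c₁) ^ 2 := ⟨_, rfl⟩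
  obtain ⟨q, hq⟩ : ∃ q : ℤ, q = 3 * (c₀ - c₁) ^ 2 * (-c₁) - 3 * (c₀ - c₁) * (-c₁) ^ 2 := ⟨_, rfl⟩
  rw [← hp, ← hq] at hfac2
  have hre : (1 + 3 * r) * p - 3 * t * q = N ^ 3 * n * β.re := by
    have h1 := congrArg QuadraticAlgebra.re hfac2
    rw [mul_re, mul_re, ha] at h1
    have e : (1 + 3 * r) * p - 3 * t * q = N ^ 3 * n * β.re - 0 * β.im := h1
    linarith
  have him : (1 + 3 * r) * q + 3 * t * p - 3 * t * q = N ^ 3 * n * β.im := by
    have h1 := congrArg QuadraticAlgebra.im hfac2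
    rw [mul_im, mul_im, ha] at h1
    have e : (1 + 3 * r) * q + 3 * t * p - 3 * t * q =
      N ^ 3 * n * β.im + 0 * β.re - 0 * β.im := h1
    linarith
  have hreF : (1 + 3 * (r : F)) * p - 3 * t * q = (N : F) ^ 3 * n * β.re := by
    exact_mod_cast congrArg (Int.cast : ℤ → F) hre
  have himF : (1 + 3 * (r : F)) * q + 3 * t * p - 3 * t * q = (N : F) ^ 3 * n * β.im := by
    exact_mod_cast congrArg (Int.cast : ℤ → F) him
  have hpF : (p : F) = ((c₀ : F) - c₁) ^ 3 + (-(c₁ : F)) ^ 3 - 3 * ((c₀ : F) - c₁) * (-(c₁ : F)) ^ 2 := by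
    rw [hp]; push_cast; ring
  have hqF : (q : F) = 3 * ((c₀ : F) - c₁) ^ 2 * (-(c₁ : F)) - 3 * ((c₀ : F) - c₁) * (-(c₁ : F)) ^ 2 := by
    rw [hq]; push_cast; ring
  obtain ⟨X, hX⟩ : ∃ X : F, X = A * ((c₀ : F) - c₁) + B * c₁ := ⟨_, rfl⟩
  obtain ⟨Y, hY⟩ : ∃ Y : F, Y = B * (c₀ : F) - A * c₁ := ⟨_, rfl⟩
  have sX : s X = Y - X := by
    rw [hX, hY]
    simp only [map_sub, map_add, map_mul, map_intCast, sA, sB]
    ring
  have sY : s Y = -X := by
    rw [hX, hY]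
    simp only [map_sub, map_mul, map_intCast, sA, sB]
    ring
  have e1 : X ^ 3 + Y ^ 3 - 3 * X * Y ^ 2 = (N : F) ^ 3 * n * β.re := by
    rw [← hreF, ← hr2, ← ht1, hpF, hqF, hX, hY]
    ring
  have e2 : 3 * X ^ 2 * Y - 3 * X * Y ^ 2 = (N : F) ^ 3 * n * β.im := by
    rw [← himF, ← hr2, ← ht1, hpF, hqF, hX, hY]
    ring
  -- `M = N n`
  have hMN : (M : ℤ) = N * n := by
    have h1 : nr a * nr (star c) ^ 3 = (N ^ 3 * n) ^ 2 * n := by
      have h2 : nr (a * star c ^ 3) = nr ((((N ^ 3 * n : ℤ)) : Ei) * β) := by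
        have h3 : a * star c ^ 3 = (((N ^ 3 * n : ℤ)) : Ei) * β := by
          rw [hst, cube_mk, ← hp, ← hq]
          exact hfac2
        rw [h3]
      rw [nr_mul, nr_pow, nr_mul, nr_int, hβ] at h2
      exact h2
    rw [hnr, nr_star, ← hN] at h1
    have hN0' : (N : ℤ) ≠ 0 := fun h => hN0 (by rw [h, Int.cast_zero])
    have h2 : (M : ℤ) ^ 3 = (N * n) ^ 3 := by
      apply mul_right_cancel₀ (pow_ne_zero 3 hN0')
      linear_combination h1
    exact Odd.pow_injective (by decide : Odd 3) h2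
  have hMN' : ((M : ℕ) : F) = (N : F) * n := by
    have h1 : (((M : ℕ) : ℤ) : F) = ((N * n : ℤ) : F) := by rw [hMN]
    push_cast at h1
    exact h1
  have hm' : A ^ 2 - A * B + B ^ 2 = ((M : ℕ) : F) := by rw [hm]; push_cast; rfl
  have e3 : X ^ 2 - X * Y + Y ^ 2 = (N : F) ^ 2 * n := by
    have h1 : X ^ 2 - X * Y + Y ^ 2 = (A ^ 2 - A * B + B ^ 2) * N := by
      rw [hX, hY, hNF]
      ring
    rw [h1, hm', hMN']
    ring
  -- the generator
  obtain ⟨θ, hθ⟩ : ∃ θ : F, θ = (2 * X - Y) / N := ⟨_, rfl⟩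
  obtain ⟨u₀, hu₀⟩ : ∃ u₀ : ℤ, u₀ = 2 * β.re - β.im := ⟨_, rfl⟩
  have hθ3 : θ ^ 3 = 3 * (n : F) * θ + (n : F) * (u₀ : F) := by
    have h1 : (N : F) * θ = 2 * X - Y := by
      rw [hθ, mul_div_cancel₀ _ hN0]
    have h2 : ((N : F) * θ) ^ 3 = (N : F) ^ 3 * (3 * (n : F) * θ + (n : F) * (u₀ : F)) := by
      have h3 : (N : F) ^ 3 * (3 * (n : F) * θ + (n : F) * (u₀ : F)) =
          3 * ((N : F) ^ 2 * n) * ((N : F) * θ) + (N : F) ^ 3 * n * (2 * β.re - β.im) := by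
        rw [hu₀]
        push_cast
        ring
      rw [h3, h1, ← e3]
      linear_combination 2 * e1 - e2
    have h3 : (N : F) ^ 3 ≠ 0 := pow_ne_zero 3 hN0
    apply mul_left_cancel₀ h3
    rw [← h2]
    ring
  have hn4 : 4 * (n : ℤ) = u₀ ^ 2 + 27 * b₁ ^ 2 := by
    have h1 : β.re ^ 2 - β.re * β.im + β.im ^ 2 = n := hβ
    rw [hu₀, ← h1]
    have h2 : (27 : ℤ) * b₁ ^ 2 = 3 * β.im ^ 2 := by rw [hb₁]; ring
    rw [h2]
    ring
  have hu0 : u₀ ≠ 0 := by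
    rw [hu₀, hb₀, hb₁]
    omega
  have hv0 : b₁ ≠ 0 := by
    intro h
    rw [hb₁, h] at e2
    have h3 : (3 : F) ≠ 0 := three_ne_zero
    have h4 : X * (Y * (X - Y)) = 0 := by
      apply mul_left_cancel₀ h3
      push_cast at e2
      linear_combination e2
    have hX0 : X = 0 := by
      rcases mul_eq_zero.1 h4 with h5 | h5
      · exact h5
      rcases mul_eq_zero.1 h5 with h6 | h6
      · have h7 := sY
        rw [h6, map_zero] at h7
        exact neg_eq_zero.1 h7.symm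
      · have h7 : Y = X := (sub_eq_zero.1 h6).symm
        have h8 := sX
        rw [h7, sub_self] at h8
        exact (map_eq_zero s).1 h8
    have hY0 : Y = 0 := by
      have h7 := sX
      rw [hX0, map_zero, sub_zero] at h7
      exact h7.symm
    rw [hX0, hY0] at e3
    have h5 : (N : F) ^ 2 * n ≠ 0 := mul_ne_zero (pow_ne_zero 2 hN0) (Nat.cast_ne_zero.2 hsq.ne_zero)
    exact h5 (by rw [← e3]; ring)
  have h4n : 4 * n = u₀.natAbs ^ 2 + 27 * b₁.natAbs ^ 2 := by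
    zify
    rw [sq_abs, sq_abs]
    exact hn4
  rcases Int.natAbs_eq u₀ with h | h
  · refine ⟨u₀.natAbs, b₁.natAbs, n, θ, Int.natAbs_pos.2 hu0, Int.natAbs_pos.2 hv0, h4n, hsq, ?_⟩
    have h5 : (u₀ : F) = ((u₀.natAbs : ℕ) : F) := by
      have := congrArg (Int.cast : ℤ → F) h
      rwa [Int.cast_natCast] at this
    rw [hθ3, h5]
  · refine ⟨u₀.natAbs, b₁.natAbs, n, -θ, Int.natAbs_pos.2 hu0, Int.natAbs_pos.2 hv0, h4n, hsq, ?_⟩
    have h5 : ((u₀.natAbs : ℕ) : F) = -(u₀ : F) := by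
      have := congrArg (Int.cast : ℤ → F) h
      rw [Int.cast_neg, Int.cast_natCast] at this
      rw [this, neg_neg]
    rw [h5]
    linear_combination -hθ3

end cyc

end Pool.Agent.Run7.h741.CC
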