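import Pool.Agent.Run7.h741.CC.Dic2
import Pool.Agent.Run7.h741.CC.A5a

/-!
# The dictionary of the cyclic cubic fields, part 3: the resolvent of `θ`, uniqueness
-/

set_option autoImplicit false

open NumberField

namespace Pool.Agent.Run7.h741.CC

open Pool.Agent.Y692.QS

section

variable {F : Type} [Field F] [NumberField F] {s : F ≃ₐ[ℚ] F} {u v n : ℕ} {th : F}

lemma hnZ (hn : 4 * n = u ^ 2 + 27 * v ^ 2) : 4 * (n : ℤ) = (u : ℤ) ^ 2 + 27 * (v : ℤ) ^ 2 := by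
  exact_mod_cast hn

lemma n_ne_one (hn : 4 * n = u ^ 2 + 27 * v ^ 2) (hv : 0 < v) : n ≠ 1 := by
  rintro rfl
  nlinarith

/-- `θ` is not rational -/
lemma th_nr (hn : 4 * n = u ^ 2 + 27 * v ^ 2) (hsq : Squarefree n) (hv : 0 < v)
    (hth : th ^ 3 = 3 * (n : F) * th + (n : F) * (u : F)) : ∀ t : ℚ, algebraMap ℚ F t ≠ th := by
  intro t ht
  have h := no_rat (u := (u : ℤ)) (n := n) (fun p hp hpn hpu => cop (hnZ hn) hsq hp hpn hpu) hsq
    (n_ne_one hn hv) t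
  apply h
  have h1 : algebraMap ℚ F (t ^ 3) = algebraMap ℚ F (3 * (n : ℚ) * t + (n : ℚ) * ((u : ℤ) : ℚ)) := by
    rw [map_pow, map_add, map_mul, map_mul, map_mul, ht, hth]
    simp
  exact (algebraMap ℚ F).injective h1

lemma th_ne (C : Cyc F s) (hnr : ∀ t : ℚ, algebraMap ℚ F t ≠ th) : s th ≠ th := by
  intro h
  obtain ⟨q, hq⟩ := C.fix h
  exact hnr q (by rw [hq, eq_ratCast])

lemma th_quad (C : Cyc F s) (hnr : ∀ t : ℚ, algebraMap ℚ F t ≠ th)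
    (hth : th ^ 3 = 3 * (n : F) * th + (n : F) * (u : F)) :
    th ^ 2 + th * s th + s th ^ 2 = 3 * (n : F) := by
  have h1 := congrArg s hth
  simp only [map_add, map_mul, map_pow, map_ofNat, map_natCast] at h1
  have h2 : s th - th ≠ 0 := sub_ne_zero.2 (th_ne C hnr)
  apply mul_left_cancel₀ h2
  linear_combination h1 - hth

lemma th_sum (C : Cyc F s) (hnr : ∀ t : ℚ, algebraMap ℚ F t ≠ th)
    (hth : th ^ 3 = 3 * (n : F) * th + (n : F) * (u : F)) :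
    th + s th + s (s th) = 0 := by
  have h1 := th_quad C hnr hth
  have h2 := congrArg s h1
  simp only [map_add, map_mul, map_pow, map_ofNat, map_natCast] at h2
  have h3 : s (s th) ≠ th := by
    intro h
    have h4 := congrArg s h
    rw [C.cube] at h4
    exact th_ne C hnr h4.symm
  have h4 : s (s th) - th ≠ 0 := sub_ne_zero.2 h3
  apply mul_left_cancel₀ h4
  linear_combination h2 - h1

lemma th_int (hth : th ^ 3 = 3 * (n : F) * th + (n : F) * (u : F)) : IsIntegral ℤ th := by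
  refine ⟨Polynomial.X ^ 3 - (Polynomial.C (3 * (n : ℤ)) * Polynomial.X +
    Polynomial.C ((n : ℤ) * u)), ?_, ?_⟩
  · apply Polynomial.Monic.sub_of_left (Polynomial.monic_X_pow 3)
    refine lt_of_le_of_lt (Polynomial.degree_linear_le) ?_
    rw [Polynomial.degree_X_pow]
    norm_num
  · rw [Polynomial.eval₂_sub, Polynomial.eval₂_add, Polynomial.eval₂_mul, Polynomial.eval₂_X_pow,
      Polynomial.eval₂_C, Polynomial.eval₂_C, Polynomial.eval₂_X, algebraMap_int_eq, eq_intCast,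
      eq_intCast, hth]
    push_cast
    ring

/-- **The resolvent.** -/
theorem resolv (C : Cyc F s) (hn : 4 * n = u ^ 2 + 27 * v ^ 2) (hsq : Squarefree n) (hv : 0 < v)
    (hth : th ^ 3 = 3 * (n : F) * th + (n : F) * (u : F)) :
    ∃ (X Y : F) (v' : ℤ), (v' = v ∨ v' = -v) ∧ s X = Y - X ∧ s Y = -X ∧
      X ^ 2 - X * Y + Y ^ 2 = (n : F) ∧
      X ^ 3 + Y ^ 3 - 3 * X * Y ^ 2 = (n : F) * ((bet u v').re : F) ∧
      3 * X ^ 2 * Y - 3 * X * Y ^ 2 = (n : F) * ((bet u v').im : F) ∧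
      IsIntegral ℤ (3 * X) ∧ IsIntegral ℤ (3 * Y) ∧ th = 2 * X - Y := by
  have hnr := th_nr hn hsq hv hth
  have hq := th_quad C hnr hth
  have hs := th_sum C hnr hth
  have ith := th_int hth
  have ith' : IsIntegral ℤ (s th) := int_s ith
  have i2 : IsIntegral ℤ (2 : F) := by
    have := isIntegral_algebraMap (R := ℤ) (A := F) (x := 2)
    simpa using this
  have h3 : (3 : F) ≠ 0 := three_ne_zero
  have hn0 : (n : F) ≠ 0 := Nat.cast_ne_zero.2 hsq.ne_zero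
  obtain ⟨X, hX⟩ : ∃ X : F, X = (2 * th + s th) / 3 := ⟨_, rfl⟩
  obtain ⟨Y, hY⟩ : ∃ Y : F, Y = (th + 2 * s th) / 3 := ⟨_, rfl⟩
  have hX3 : 3 * X = 2 * th + s th := by rw [hX, mul_div_cancel₀ _ h3]
  have hY3 : 3 * Y = th + 2 * s th := by rw [hY, mul_div_cancel₀ _ h3]
  have ht : th = 2 * X - Y := by
    apply mul_left_cancel₀ h3
    linear_combination -2 * hX3 + hY3
  have ht' : s th = 2 * Y - X := by
    apply mul_left_cancel₀ h3
    linear_combination -2 * hY3 + hX3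
  have sX : s X = Y - X := by
    have h4 := congrArg s hX3
    simp only [map_add, map_mul, map_ofNat] at h4
    apply mul_left_cancel₀ h3
    linear_combination h4 + hs - hY3 + hX3
  have sY : s Y = -X := by
    have h4 := congrArg s hY3
    simp only [map_add, map_mul, map_ofNat] at h4
    apply mul_left_cancel₀ h3
    linear_combination h4 + 2 * hs + hX3
  have e1 : X ^ 2 - X * Y + Y ^ 2 = (n : F) := by
    apply mul_left_cancel₀ h3
    rw [ht', ht] at hq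
    linear_combination hq
  have e2 : 2 * (X ^ 3 + Y ^ 3 - 3 * X * Y ^ 2) - (3 * X ^ 2 * Y - 3 * X * Y ^ 2) =
      (n : F) * (u : F) := by
    rw [ht] at hth
    linear_combination hth - 3 * (2 * X - Y) * e1
  have hnF : 4 * (n : F) = (u : F) ^ 2 + 27 * (v : F) ^ 2 := by
    exact_mod_cast congrArg (Nat.cast : ℕ → F) hn
  -- the square of the second coordinate
  have e3 : (3 * X ^ 2 * Y - 3 * X * Y ^ 2) ^ 2 = (3 * (n : F) * v) ^ 2 := by
    apply mul_left_cancel₀ h3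
    have e4 : 3 * (3 * X ^ 2 * Y - 3 * X * Y ^ 2) ^ 2 = 4 * (X ^ 2 - X * Y + Y ^ 2) ^ 3 -
        (2 * (X ^ 3 + Y ^ 3 - 3 * X * Y ^ 2) - (3 * X ^ 2 * Y - 3 * X * Y ^ 2)) ^ 2 := by ring
    rw [e4, e1, e2]
    linear_combination (n : F) ^ 2 * hnF
  have h2 : (2 : F) ≠ 0 := two_ne_zero
  obtain ⟨v', hv', e5⟩ : ∃ v' : ℤ, (v' = v ∨ v' = -v) ∧
      3 * X ^ 2 * Y - 3 * X * Y ^ 2 = (n : F) * (3 * (v' : F)) := by
    rcases sq_eq_sq_iff_eq_or_eq_neg.1 e3 with h | h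
    · refine ⟨v, Or.inl rfl, ?_⟩
      rw [h]
      push_cast
      ring
    · refine ⟨-v, Or.inr rfl, ?_⟩
      rw [h]
      push_cast
      ring
  have hn' : 4 * (n : ℤ) = (u : ℤ) ^ 2 + 27 * v' ^ 2 := by
    rcases hv' with h | h <;> rw [h, hnZ hn]
    ring
  have hpar := par hn'
  refine ⟨X, Y, v', hv', sX, sY, e1, ?_, ?_, ?_, ?_, ht⟩
  · apply mul_left_cancel₀ h2
    have h6 : (2 : F) * ((bet u v').re : F) = (u : F) + 3 * (v' : F) := by
      have h7 : ((((u : ℤ) + 3 * v') / 2 * 2 : ℤ) : F) = (((u : ℤ) + 3 * v' : ℤ) : F) := by rw [hpar]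
      push_cast at h7
      have h8 : ((bet u v').re : F) = ((((u : ℤ) + 3 * v') / 2 : ℤ) : F) := rfl
      rw [h8]
      linear_combination h7
    linear_combination e2 + e5 - (n : F) * h6
  · rw [e5]
    have h8 : ((bet u v').im : F) = ((3 * v' : ℤ) : F) := rfl
    rw [h8]
    push_cast
    ring
  · rw [hX3]
    exact (i2.mul ith).add ith'
  · rw [hY3]
    exact ith.add (i2.mul ith')

/-- **Uniqueness**, the conductor being given -/
theorem unique_uv (C : Cyc F s) {u₁ v₁ : ℕ} {th₁ : F} (hn : 4 * n = u ^ 2 + 27 * v ^ 2)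
    (hn₁ : 4 * n = u₁ ^ 2 + 27 * v₁ ^ 2) (hsq : Squarefree n) (hv : 0 < v) (hv₁ : 0 < v₁)
    (hth : th ^ 3 = 3 * (n : F) * th + (n : F) * (u : F))
    (hth₁ : th₁ ^ 3 = 3 * (n : F) * th₁ + (n : F) * (u₁ : F)) : u = u₁ ∧ v = v₁ := by
  obtain ⟨X, Y, v', hv', sX, sY, a1, a2, a3, iX, iY, -⟩ := resolv C hn hsq hv hth
  obtain ⟨X₁, Y₁, v₁', hv₁', sX₁, sY₁, b1, b2, b3, iX₁, iY₁, -⟩ := resolv C hn₁ hsq hv₁ hth₁
  have hn0 : (n : F) ≠ 0 := Nat.cast_ne_zero.2 hsq.ne_zero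
  obtain ⟨k₀, hk₀⟩ := C.int (x := 9 * (X₁ * (X - Y) + Y₁ * Y)) (by
    simp only [map_mul, map_add, map_sub, map_ofNat, sX, sY, sX₁, sY₁]
    ring) (by
    have e : 9 * (X₁ * (X - Y) + Y₁ * Y) = (3 * X₁) * (3 * X - 3 * Y) + (3 * Y₁) * (3 * Y) := by ring
    rw [e]
    exact (iX₁.mul (iX.sub iY)).add (iY₁.mul iY))
  obtain ⟨k₁, hk₁⟩ := C.int (x := 9 * (Y₁ * X - X₁ * Y)) (by
    simp only [map_mul, map_sub, map_ofNat, sX, sY, sX₁, sY₁]
    ring) (by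
    have e : 9 * (Y₁ * X - X₁ * Y) = (3 * Y₁) * (3 * X) - (3 * X₁) * (3 * Y) := by ring
    rw [e]
    exact (iY₁.mul iX).sub (iX₁.mul iY))
  have c1 : (k₀ : F) * X - k₁ * Y = 9 * (n : F) * X₁ := by
    rw [← hk₀, ← hk₁, ← a1]
    ring
  have c2 : (k₀ : F) * Y + k₁ * X - k₁ * Y = 9 * (n : F) * Y₁ := by
    rw [← hk₀, ← hk₁, ← a1]
    ring
  obtain ⟨p, hp⟩ : ∃ p : ℤ, p = k₀ ^ 3 + k₁ ^ 3 - 3 * k₀ * k₁ ^ 2 := ⟨_, rfl⟩
  obtain ⟨q, hq⟩ : ∃ q : ℤ, q = 3 * k₀ ^ 2 * k₁ - 3 * k₀ * k₁ ^ 2 := ⟨_, rfl⟩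
  have hpF : (p : F) = (k₀ : F) ^ 3 + (k₁ : F) ^ 3 - 3 * k₀ * (k₁ : F) ^ 2 := by rw [hp]; push_cast; ring
  have hqF : (q : F) = 3 * (k₀ : F) ^ 2 * k₁ - 3 * k₀ * (k₁ : F) ^ 2 := by rw [hq]; push_cast; ring
  have d1 : (p : F) * (bet u v').re - q * (bet u v').im = (9 * (n : F)) ^ 3 * (bet u₁ v₁').re := by
    apply mul_left_cancel₀ hn0
    have e1 : (n : F) * ((9 * (n : F)) ^ 3 * (bet u₁ v₁').re) =
        (9 * (n : F) * X₁) ^ 3 + (9 * (n : F) * Y₁) ^ 3 - 3 * (9 * (n : F) * X₁) * (9 * (n : F) * Y₁) ^ 2 := by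
      linear_combination -(9 * (n : F)) ^ 3 * b2
    rw [e1, ← c1, ← c2, hpF, hqF]
    linear_combination -((k₀ : F) ^ 3 + (k₁ : F) ^ 3 - 3 * k₀ * (k₁ : F) ^ 2) * a2 +
      (3 * (k₀ : F) ^ 2 * k₁ - 3 * k₀ * (k₁ : F) ^ 2) * a3
  have d2 : (p : F) * (bet u v').im + q * (bet u v').re - q * (bet u v').im =
      (9 * (n : F)) ^ 3 * (bet u₁ v₁').im := by
    apply mul_left_cancel₀ hn0
    have e1 : (n : F) * ((9 * (n : F)) ^ 3 * (bet u₁ v₁').im) =
        3 * (9 * (n : F) * X₁) ^ 2 * (9 * (n : F) * Y₁) - 3 * (9 * (n : F) * X₁) * (9 * (n : F) * Y₁) ^ 2 := by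
      linear_combination -(9 * (n : F)) ^ 3 * b3
    rw [e1, ← c1, ← c2, hpF, hqF]
    linear_combination -((k₀ : F) ^ 3 + (k₁ : F) ^ 3 - 3 * k₀ * (k₁ : F) ^ 2) * a3 -
      (3 * (k₀ : F) ^ 2 * k₁ - 3 * k₀ * (k₁ : F) ^ 2) * a2 +
      (3 * (k₀ : F) ^ 2 * k₁ - 3 * k₀ * (k₁ : F) ^ 2) * a3
  have f1 : p * (bet u v').re - q * (bet u v').im = (9 * (n : ℤ)) ^ 3 * (bet u₁ v₁').re := by
    exact_mod_cast d1
  have f2 : p * (bet u v').im + q * (bet u v').re - q * (bet u v').im =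
      (9 * (n : ℤ)) ^ 3 * (bet u₁ v₁').im := by
    exact_mod_cast d2
  have hn' : 4 * (n : ℤ) = (u : ℤ) ^ 2 + 27 * v' ^ 2 := by
    rcases hv' with h | h <;> rw [h, hnZ hn]
    ring
  have hn₁' : 4 * (n : ℤ) = (u₁ : ℤ) ^ 2 + 27 * v₁' ^ 2 := by
    rcases hv₁' with h | h <;> rw [h, hnZ hn₁]
    ring
  have key : (⟨k₀, k₁⟩ : Ei) ^ 3 * bet u v' = ((((9 * n : ℕ) : ℤ)) : Ei) ^ 3 * bet u₁ v₁' := by
    rw [cube_mk, ← hp, ← hq, ← Int.cast_pow]
    ext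
    · rw [mul_re, mul_re]
      show p * (bet u v').re - q * (bet u v').im =
        (((9 * n : ℕ) : ℤ)) ^ 3 * (bet u₁ v₁').re - 0 * (bet u₁ v₁').im
      rw [f1]
      push_cast
      ring
    · rw [mul_im, mul_im]
      show p * (bet u v').im + q * (bet u v').re - q * (bet u v').im =
        (((9 * n : ℕ) : ℤ)) ^ 3 * (bet u₁ v₁').im + 0 * (bet u₁ v₁').re - 0 * (bet u₁ v₁').im
      rw [f2]
      push_cast
      ring
  have h9 : ((((9 * n : ℕ) : ℤ)) : Ei) ≠ 0 := by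
    have : 9 * n ≠ 0 := by
      have := hsq.ne_zero
      omega
    exact_mod_cast this
  have hfin := uniq hsq (nr_bet hn') (nr_bet hn₁') h9 key
  have him : v' = v₁' ∨ v' = -v₁' := by
    rcases hfin with h | h
    · left
      have h1 : 3 * v' = 3 * v₁' := congrArg QuadraticAlgebra.im h
      omega
    · right
      have h1 : 3 * v' = -(3 * v₁') := congrArg QuadraticAlgebra.im h
      omega
  have hvv : v = v₁ := by
    rcases hv' with h | h <;> rcases hv₁' with h' | h' <;> rcases him with h'' | h'' <;> omega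
  refine ⟨?_, hvv⟩
  rw [hvv] at hn
  have h1 : u ^ 2 = u₁ ^ 2 := by omega
  exact Nat.pow_left_injective (by norm_num : 2 ≠ 0) h1

end

end Pool.Agent.Run7.h741.CC
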