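import Pool.Agent.Run7.h741.CC.Dic3

/-!
# The dictionary of the cyclic cubic fields, part 4: the discriminant is `n²`
-/

set_option autoImplicit false
set_option linter.unusedSectionVars false

open NumberField

namespace Pool.Agent.Run7.h741.CC

open Pool.Agent.Y692.QS

section

variable {F : Type} [Field F] [NumberField F] {s : F ≃ₐ[ℚ] F} {u v n : ℕ} {th : F}

lemma int_val (k : ℤ) : IsIntegral ℤ (k : F) := by
  have := isIntegral_algebraMap (R := ℤ) (A := F) (x := k)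
  simpa using this

/-- the trace of an integer -/
lemma tr_val (C : Cyc F s) (x : 𝓞 F) :
    ((Algebra.trace ℤ (𝓞 F) x : ℤ) : F) = (x : F) + s x + s (s x) := by
  rw [← C.tr, ← Algebra.coe_trace_int]
  simp

lemma tr_val' (C : Cyc F s) (x : 𝓞 F) :
    ((Algebra.trace ℤ (𝓞 F) x : ℤ) : F) = algebraMap (𝓞 F) F x + s (algebraMap (𝓞 F) F x) +
      s (s (algebraMap (𝓞 F) F x)) := tr_val C x

/-- the trace of `θ x` is divisible by every prime which divides `n` -/
lemma tr_dvd (C : Cyc F s) (hth : th ^ 3 = 3 * (n : F) * th + (n : F) * (u : F))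
    {p : ℕ} (hp : p.Prime) (hpn : p ∣ n) {x : F} (hx : IsIntegral ℤ x) {E : ℤ}
    (hE : (E : F) = th * x + s (th * x) + s (s (th * x))) : (p : ℤ) ∣ E := by
  obtain ⟨m, rfl⟩ := hpn
  have hpi : Prime (p : ℤ) := Nat.prime_iff_prime_int.1 hp
  have hp0 : (p : F) ≠ 0 := Nat.cast_ne_zero.2 hp.ne_zero
  have ith : IsIntegral ℤ th := th_int hth
  obtain ⟨z, hz⟩ : ∃ z : F, z = th * x := ⟨_, rfl⟩
  rw [← hz] at hE
  have iz : IsIntegral ℤ z := by rw [hz]; exact ith.mul hx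
  obtain ⟨y, hy⟩ : ∃ y : F, y = (m : F) * (3 * th + (u : F)) * x ^ 3 := ⟨_, rfl⟩
  have iN : ∀ k : ℕ, IsIntegral ℤ ((k : F)) := fun k => by
    have := int_val (F := F) (k : ℤ)
    simpa using this
  have iy : IsIntegral ℤ y := by
    rw [hy]
    have i3 := iN 3
    push_cast at i3
    exact (((iN m).mul ((i3.mul ith).add (iN u)))).mul (hx.pow 3)
  have hzy : z ^ 3 = (p : F) * y := by
    rw [hz, hy, mul_pow, hth]
    push_cast
    ring
  have hzy' : s z ^ 3 = (p : F) * s y := by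
    have := congrArg s hzy
    simpa only [map_pow, map_mul, map_natCast] using this
  have hzy'' : s (s z) ^ 3 = (p : F) * s (s y) := by
    have := congrArg s hzy'
    simpa only [map_pow, map_mul, map_natCast] using this
  have iz' := int_s (s := s) iz
  have iz'' := int_s (s := s) iz'
  have iy' := int_s (s := s) iy
  have iy'' := int_s (s := s) iy'
  obtain ⟨E2, hE2⟩ := C.int (x := z * s z + s z * s (s z) + s (s z) * z) (by
    simp only [map_add, map_mul, C.cube]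
    ring) (((iz.mul iz').add (iz'.mul iz'')).add (iz''.mul iz))
  obtain ⟨E3, hE3⟩ := C.int (x := z * s z * s (s z)) (by
    simp only [map_mul, C.cube]
    ring) ((iz.mul iz').mul iz'')
  obtain ⟨Y1, hY1⟩ := C.int (x := y + s y + s (s y)) (by
    simp only [map_add, C.cube]
    ring) ((iy.add iy').add iy'')
  obtain ⟨Y2, hY2⟩ := C.int (x := y * s y + s y * s (s y) + s (s y) * y) (by
    simp only [map_add, map_mul, C.cube]
    ring) (((iy.mul iy').add (iy'.mul iy'')).add (iy''.mul iy))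
  obtain ⟨Y3, hY3⟩ := C.int (x := y * s y * s (s y)) (by
    simp only [map_mul, C.cube]
    ring) ((iy.mul iy').mul iy'')
  have r3 : E3 ^ 3 = (p : ℤ) ^ 3 * Y3 := by
    have h : ((E3 ^ 3 : ℤ) : F) = (((p : ℤ) ^ 3 * Y3 : ℤ) : F) := by
      push_cast
      rw [← hE3, ← hY3]
      have e : (z * s z * s (s z)) ^ 3 = z ^ 3 * s z ^ 3 * s (s z) ^ 3 := by ring
      rw [e, hzy, hzy', hzy'']
      ring
    exact_mod_cast h
  have r2 : E2 ^ 3 = (p : ℤ) ^ 2 * Y2 + 3 * E2 * E * E3 - 3 * E3 ^ 2 := by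
    have h : ((E2 ^ 3 : ℤ) : F) = (((p : ℤ) ^ 2 * Y2 + 3 * E2 * E * E3 - 3 * E3 ^ 2 : ℤ) : F) := by
      push_cast
      rw [hE, ← hE2, ← hE3, ← hY2]
      have e : (z * s z + s z * s (s z) + s (s z) * z) ^ 3 =
          (z ^ 3 * s z ^ 3 + s z ^ 3 * s (s z) ^ 3 + s (s z) ^ 3 * z ^ 3) +
          3 * (z * s z + s z * s (s z) + s (s z) * z) * (z + s z + s (s z)) * (z * s z * s (s z)) -
          3 * (z * s z * s (s z)) ^ 2 := by ring
      rw [e, hzy, hzy', hzy'']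
      ring
    exact_mod_cast h
  have r1 : E ^ 3 = (p : ℤ) * Y1 + 3 * E * E2 - 3 * E3 := by
    have h : ((E ^ 3 : ℤ) : F) = (((p : ℤ) * Y1 + 3 * E * E2 - 3 * E3 : ℤ) : F) := by
      push_cast
      rw [hE, ← hE2, ← hE3, ← hY1]
      have e : (z + s z + s (s z)) ^ 3 = (z ^ 3 + s z ^ 3 + s (s z) ^ 3) +
          3 * (z + s z + s (s z)) * (z * s z + s z * s (s z) + s (s z) * z) -
          3 * (z * s z * s (s z)) := by ring
      rw [e, hzy, hzy', hzy'']
      ring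
    exact_mod_cast h
  have d3 : (p : ℤ) ∣ E3 := hpi.dvd_of_dvd_pow (n := 3) ⟨(p : ℤ) ^ 2 * Y3, by rw [r3]; ring⟩
  have d2 : (p : ℤ) ∣ E2 := by
    apply hpi.dvd_of_dvd_pow (n := 3)
    rw [r2]
    exact dvd_sub (dvd_add ⟨(p : ℤ) * Y2, by ring⟩ (Dvd.dvd.mul_left d3 _))
      (Dvd.dvd.mul_left (dvd_pow d3 two_ne_zero) _)
  apply hpi.dvd_of_dvd_pow (n := 3)
  rw [r1]
  exact dvd_sub (dvd_add (dvd_mul_right _ _) (Dvd.dvd.mul_left d2 _)) (Dvd.dvd.mul_left d3 _)

/-- the prime divisors of `n` divide the discriminant -/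
lemma dvd_disc (C : Cyc F s) (hn : 4 * n = u ^ 2 + 27 * v ^ 2) (hsq : Squarefree n)
    (hth : th ^ 3 = 3 * (n : F) * th + (n : F) * (u : F)) {p : ℕ} (hp : p.Prime) (hpn : p ∣ n) :
    (p : ℤ) ∣ discr F := by
  have : Fact p.Prime := ⟨hp⟩
  have ith : IsIntegral ℤ th := th_int hth
  obtain ⟨t, ht⟩ : ∃ t : 𝓞 F, (t : F) = th := ⟨⟨th, ith⟩, rfl⟩
  set b := RingOfIntegers.basis F with hb
  have h1 : ∀ i, (p : ℤ) ∣ Algebra.trace ℤ (𝓞 F) (b i * t) := by
    intro i
    apply tr_dvd C hth hp hpn (x := (b i : F)) (RingOfIntegers.isIntegral_coe (b i))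
    rw [tr_val C]
    have e : ((b i * t : 𝓞 F) : F) = th * (b i : F) := by
      rw [← ht]
      push_cast
      ring
    rw [e]
  rw [← ZMod.intCast_zmod_eq_zero_iff_dvd]
  unfold discr
  rw [Algebra.discr_def]
  show (Int.castRingHom (ZMod p)) (Matrix.det _) = 0
  rw [RingHom.map_det]
  apply Matrix.exists_mulVec_eq_zero_iff.1
  refine ⟨fun i => ((b.repr t i : ℤ) : ZMod p), ?_, ?_⟩
  · intro h
    have h2 : ∀ i, (p : ℤ) ∣ b.repr t i := fun i =>
      (ZMod.intCast_zmod_eq_zero_iff_dvd _ p).1 (congrFun h i)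
    choose c hc using h2
    have h3 : t = (p : 𝓞 F) * ∑ i, c i • b i := by
      conv_lhs => rw [← b.sum_repr t]
      rw [Finset.mul_sum]
      refine Finset.sum_congr rfl fun i _ => ?_
      rw [hc i]
      simp only [zsmul_eq_mul]
      push_cast
      ring
    obtain ⟨t₁, ht₁⟩ : ∃ t₁ : F, t₁ = ((∑ i, c i • b i : 𝓞 F) : F) := ⟨_, rfl⟩
    have it₁ : IsIntegral ℤ t₁ := by rw [ht₁]; exact RingOfIntegers.isIntegral_coe _
    have h4 : th = (p : F) * t₁ := by
      rw [← ht, h3, ht₁]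
      push_cast
      rfl
    obtain ⟨m, rfl⟩ := hpn
    have hp0 : (p : F) ≠ 0 := Nat.cast_ne_zero.2 hp.ne_zero
    have h5 : ((m * u : ℕ) : F) = (p : F) * ((p : F) * t₁ ^ 3 - 3 * (m : F) * t₁) := by
      apply mul_left_cancel₀ hp0
      rw [h4] at hth
      push_cast at hth ⊢
      linear_combination -hth
    obtain ⟨r, hr⟩ : ∃ r : F, r = (p : F) * t₁ ^ 3 - 3 * (m : F) * t₁ := ⟨_, rfl⟩
    have ir : IsIntegral ℤ r := by
      rw [hr]
      have iN : ∀ k : ℕ, IsIntegral ℤ ((k : F)) := fun k => by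
        have := int_val (F := F) (k : ℤ)
        simpa using this
      have i3 := iN 3
      push_cast at i3
      exact ((iN p).mul (it₁.pow 3)).sub ((i3.mul (iN m)).mul it₁)
    rw [← hr] at h5
    have h6 : s r = r := by
      have h7 := congrArg s h5
      rw [map_mul, map_natCast, map_natCast, h5] at h7
      exact (mul_left_cancel₀ hp0 h7).symm
    obtain ⟨k, hk⟩ := C.int h6 ir
    rw [hk] at h5
    have h7 : ((m * u : ℕ) : ℤ) = (p : ℤ) * k := by exact_mod_cast h5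
    have h8 : p ∣ m * u := by
      have : (p : ℤ) ∣ ((m * u : ℕ) : ℤ) := ⟨k, h7⟩
      exact_mod_cast this
    rcases (Nat.Prime.dvd_mul hp).1 h8 with h9 | h9
    · have h10 := hsq p (Nat.mul_dvd_mul_left p h9)
      rw [Nat.isUnit_iff] at h10
      exact hp.one_lt.ne' h10
    · exact cop (hnZ hn) hsq hp (dvd_mul_right _ _) (by exact_mod_cast h9)
  · funext i
    show ∑ j, ((Int.castRingHom (ZMod p)).mapMatrix (Algebra.traceMatrix ℤ b)) i j *
      ((b.repr t j : ℤ) : ZMod p) = 0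
    have h2 : Algebra.trace ℤ (𝓞 F) (b i * t) =
        ∑ j, Algebra.trace ℤ (𝓞 F) (b i * b j) * b.repr t j := by
      conv_lhs => rw [← b.sum_repr t]
      rw [Finset.mul_sum, map_sum]
      refine Finset.sum_congr rfl fun j _ => ?_
      rw [mul_smul_comm, map_smul, smul_eq_mul, mul_comm]
    have h3 := (ZMod.intCast_zmod_eq_zero_iff_dvd _ p).2 (h1 i)
    rw [h2] at h3
    push_cast at h3
    rw [← h3]
    refine Finset.sum_congr rfl fun j _ => ?_
    rw [RingHom.mapMatrix_apply, Matrix.map_apply, Algebra.traceMatrix_apply,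
      Algebra.traceForm_apply, Int.coe_castRingHom]

/-- an integral element of trace `±1` with the resolvent of `θ` -/
lemma eta_int (hn : 4 * n = u ^ 2 + 27 * v ^ 2) (hsq : Squarefree n)
    (hth : th ^ 3 = 3 * (n : F) * th + (n : F) * (u : F)) :
    ∃ c : ℤ, c ^ 2 = 1 ∧ IsIntegral ℤ (((c : F) + th) / 3) := by
  have h3 : (3 : F) ≠ 0 := three_ne_zero
  have hn3 := n_three (hnZ hn) hsq
  obtain ⟨k, hk⟩ : ∃ k : ℕ, n = 1 + 3 * k := ⟨n / 3, by omega⟩
  have hnF : (n : F) = 1 + 3 * (k : F) := by rw [hk]; push_cast; ring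
  have hu3 : u % 3 = 1 ∨ u % 3 = 2 := by
    have h4 : u % 3 ≠ 0 := by
      intro h
      obtain ⟨j, rfl⟩ := Nat.dvd_of_mod_eq_zero h
      have : 4 * n = 3 * (3 * j ^ 2 + 9 * v ^ 2) := by rw [hn]; ring
      omega
    omega
  have main : ∀ (c l : ℤ), c ^ 2 = 1 → -c + 3 * c * n - n * u = 27 * l →
      ∃ c : ℤ, c ^ 2 = 1 ∧ IsIntegral ℤ (((c : F) + th) / 3) := by
    intro c l hc hl
    refine ⟨c, hc, ?_⟩
    obtain ⟨y, hy⟩ : ∃ y : F, y = ((c : F) + th) / 3 := ⟨_, rfl⟩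
    have hy3 : th = 3 * y - c := by rw [hy, mul_div_cancel₀ _ h3]; ring
    have hcF : (c : F) ^ 2 = 1 := by exact_mod_cast congrArg (Int.cast : ℤ → F) hc
    have hlF : -(c : F) + 3 * c * n - n * u = 27 * l := by
      exact_mod_cast congrArg (Int.cast : ℤ → F) hl
    have hpoly : y ^ 3 = (c : F) * y ^ 2 + (k : F) * y - l := by
      have h27 : (27 : F) ≠ 0 := by
        have : (27 : F) = 3 ^ 3 := by norm_num
        rw [this]
        exact pow_ne_zero 3 h3
      apply mul_left_cancel₀ h27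
      rw [hy3] at hth
      have hc3 : (c : F) ^ 3 = c := by linear_combination (c : F) * hcF
      linear_combination hth - 9 * y * hcF + hc3 - hlF + 9 * y * hnF
    rw [← hy]
    refine ⟨Polynomial.X ^ 3 - (Polynomial.C c * Polynomial.X ^ 2 + Polynomial.C (k : ℤ) *
      Polynomial.X + Polynomial.C (-l)), ?_, ?_⟩
    · apply Polynomial.Monic.sub_of_left (Polynomial.monic_X_pow 3)
      refine lt_of_le_of_lt (Polynomial.degree_quadratic_le) ?_
      rw [Polynomial.degree_X_pow]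
      norm_num
    · rw [Polynomial.eval₂_sub, Polynomial.eval₂_add, Polynomial.eval₂_add, Polynomial.eval₂_mul,
        Polynomial.eval₂_mul, Polynomial.eval₂_X_pow, Polynomial.eval₂_X_pow, Polynomial.eval₂_C,
        Polynomial.eval₂_C, Polynomial.eval₂_C, Polynomial.eval₂_X, hpoly]
      simp only [algebraMap_int_eq, eq_intCast]
      push_cast
      ring
  have hnz := hnZ hn
  rcases hu3 with h | h
  · obtain ⟨j, hj⟩ : ∃ j : ℕ, u = 3 * j + 1 := ⟨u / 3, by omega⟩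
    -- `c = -1`
    have h5 : (27 : ℤ) ∣ 4 * (1 - 3 * n - n * u) := by
      refine ⟨-(((j : ℤ) + 1) ^ 2 * j) - v ^ 2 * (3 + u), ?_⟩
      have : (4 : ℤ) * (1 - 3 * n - n * u) = 4 - (4 * (n : ℤ)) * (3 + u) := by ring
      rw [this, hnz, hj]
      push_cast
      ring
    obtain ⟨l, hl⟩ : (27 : ℤ) ∣ 1 - 3 * n - n * u := by
      have h6 : IsCoprime (27 : ℤ) 4 := ⟨3, -20, by norm_num⟩
      exact h6.dvd_of_dvd_mul_left h5
    exact main (-1) l (by norm_num) (by linarith)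
  · obtain ⟨j, hj⟩ : ∃ j : ℕ, u = 3 * j + 2 := ⟨u / 3, by omega⟩
    have h5 : (27 : ℤ) ∣ 4 * (-1 + 3 * n - n * u) := by
      refine ⟨-((j : ℤ) ^ 2 * (j + 1)) + v ^ 2 * (3 - u), ?_⟩
      have : (4 : ℤ) * (-1 + 3 * n - n * u) = -4 + (4 * (n : ℤ)) * (3 - u) := by ring
      rw [this, hnz, hj]
      push_cast
      ring
    obtain ⟨l, hl⟩ : (27 : ℤ) ∣ -1 + 3 * n - n * u := by
      have h6 : IsCoprime (27 : ℤ) 4 := ⟨3, -20, by norm_num⟩
      exact h6.dvd_of_dvd_mul_left h5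
    exact main 1 l (by norm_num) (by linarith)

/-- **The discriminant.** -/
theorem disc_eq (hd : Module.finrank ℚ F = 3) (C : Cyc F s) (hn : 4 * n = u ^ 2 + 27 * v ^ 2)
    (hsq : Squarefree n) (hv : 0 < v) (hth : th ^ 3 = 3 * (n : F) * th + (n : F) * (u : F)) :
    discr F = (n : ℤ) ^ 2 := by
  obtain ⟨c, hc, iη⟩ := eta_int hn hsq hth
  have h3 : (3 : F) ≠ 0 := three_ne_zero
  obtain ⟨η, hη⟩ : ∃ η : F, η = ((c : F) + th) / 3 := ⟨_, rfl⟩
  rw [← hη] at iη
  have hη3 : 3 * η = (c : F) + th := by rw [hη, mul_div_cancel₀ _ h3]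
  have hnr := th_nr hn hsq hv hth
  have hq := th_quad C hnr hth
  have hs := th_sum C hnr hth
  have hη3' : 3 * s η = (c : F) + s th := by
    have := congrArg s hη3
    simpa only [map_mul, map_add, map_ofNat, map_intCast] using this
  have hη3'' : 3 * s (s η) = (c : F) + s (s th) := by
    have := congrArg s hη3'
    simpa only [map_mul, map_add, map_ofNat, map_intCast] using this
  have hcF : (c : F) ^ 2 = 1 := by exact_mod_cast congrArg (Int.cast : ℤ → F) hc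
  have hsum : η + s η + s (s η) = c := by
    apply mul_left_cancel₀ h3
    linear_combination hη3 + hη3' + hη3'' + hs
  have hs2 : s (s th) = -th - s th := by linear_combination hs
  have hdiff : (η ^ 2 + s η ^ 2 + s (s η) ^ 2) - (η * s η + s η * s (s η) + s (s η) * η) = (n : F) := by
    have h9 : (9 : F) ≠ 0 := by
      have : (9 : F) = 3 ^ 2 := by norm_num
      rw [this]
      exact pow_ne_zero 2 h3
    apply mul_left_cancel₀ h9
    have e : 9 * ((η ^ 2 + s η ^ 2 + s (s η) ^ 2) - (η * s η + s η * s (s η) + s (s η) * η)) =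
      ((3 * η) ^ 2 + (3 * s η) ^ 2 + (3 * s (s η)) ^ 2) - ((3 * η) * (3 * s η) +
        (3 * s η) * (3 * s (s η)) + (3 * s (s η)) * (3 * η)) := by ring
    rw [e, hη3, hη3', hη3'', hs2]
    linear_combination 3 * hq
  -- the three integers
  obtain ⟨y₀, hy₀⟩ : ∃ y : 𝓞 F, algebraMap (𝓞 F) F y = η := ⟨⟨η, iη⟩, rfl⟩
  obtain ⟨y₁, hy₁⟩ : ∃ y : 𝓞 F, algebraMap (𝓞 F) F y = s η := ⟨⟨s η, int_s iη⟩, rfl⟩
  obtain ⟨y₂, hy₂⟩ : ∃ y : 𝓞 F, algebraMap (𝓞 F) F y = s (s η) := ⟨⟨s (s η), int_s (int_s iη)⟩, rfl⟩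
  obtain ⟨S, hS⟩ : ∃ S : ℤ, S = Algebra.trace ℤ (𝓞 F) (y₀ * y₀) := ⟨_, rfl⟩
  obtain ⟨T, hT⟩ : ∃ T : ℤ, T = Algebra.trace ℤ (𝓞 F) (y₀ * y₁) := ⟨_, rfl⟩
  have vS : (S : F) = η ^ 2 + s η ^ 2 + s (s η) ^ 2 := by
    rw [hS, tr_val' C]
    simp only [map_mul, hy₀]
    ring
  have vT : (T : F) = η * s η + s η * s (s η) + s (s η) * η := by
    rw [hT, tr_val' C]
    simp only [map_mul, hy₀, hy₁, C.cube]
  have hST : S - T = n := by
    have : ((S - T : ℤ) : F) = ((n : ℤ) : F) := by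
      push_cast
      rw [vS, vT]
      exact hdiff
    exact_mod_cast this
  have hST2 : S + 2 * T = 1 := by
    have : ((S + 2 * T : ℤ) : F) = ((1 : ℤ) : F) := by
      push_cast
      rw [vS, vT, ← hcF, ← hsum]
      ring
    exact_mod_cast this
  have entry : ∀ (a b : 𝓞 F) (E : ℤ), (E : F) = algebraMap (𝓞 F) F a * algebraMap (𝓞 F) F b +
      s (algebraMap (𝓞 F) F a) * s (algebraMap (𝓞 F) F b) +
      s (s (algebraMap (𝓞 F) F a)) * s (s (algebraMap (𝓞 F) F b)) →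
      Algebra.trace ℤ (𝓞 F) (a * b) = E := by
    intro a b E hE
    have : ((Algebra.trace ℤ (𝓞 F) (a * b) : ℤ) : F) = (E : F) := by
      rw [tr_val' C, hE]
      simp only [map_mul]
    exact_mod_cast this
  have hdet : Algebra.discr ℤ ![y₀, y₁, y₂] = (n : ℤ) ^ 2 := by
    rw [Algebra.discr_def, Matrix.det_fin_three]
    simp only [Algebra.traceMatrix_apply, Algebra.traceForm_apply]
    have m00 : Algebra.trace ℤ (𝓞 F) (y₀ * y₀) = S := hS.symm
    have m01 : Algebra.trace ℤ (𝓞 F) (y₀ * y₁) = T := hT.symm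
    have m10 : Algebra.trace ℤ (𝓞 F) (y₁ * y₀) = T := by rw [mul_comm]; exact hT.symm
    have m11 : Algebra.trace ℤ (𝓞 F) (y₁ * y₁) = S := entry _ _ _ (by
      rw [vS, hy₁]
      simp only [map_mul, C.cube]
      ring)
    have m22 : Algebra.trace ℤ (𝓞 F) (y₂ * y₂) = S := entry _ _ _ (by
      rw [vS, hy₂]
      simp only [map_mul, C.cube]
      ring)
    have m12 : Algebra.trace ℤ (𝓞 F) (y₁ * y₂) = T := entry _ _ _ (by
      rw [vT, hy₁, hy₂]
      simp only [map_mul, C.cube]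
      ring)
    have m21 : Algebra.trace ℤ (𝓞 F) (y₂ * y₁) = T := by rw [mul_comm]; exact m12
    have m02 : Algebra.trace ℤ (𝓞 F) (y₀ * y₂) = T := entry _ _ _ (by
      rw [vT, hy₀, hy₂]
      simp only [map_mul, C.cube]
      ring)
    have m20 : Algebra.trace ℤ (𝓞 F) (y₂ * y₀) = T := by rw [mul_comm]; exact m02
    simp only [Matrix.cons_val_zero, Matrix.cons_val_one, Matrix.cons_val]
    rw [m00, m01, m02, m10, m11, m12, m20, m21, m22]
    have e : S * S * S - S * T * T - T * T * S + T * T * T + T * T * T - T * S * T =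
        (S - T) ^ 2 * (S + 2 * T) := by ring
    rw [e, hST, hST2, mul_one]
  -- the index
  have hcard : Fintype.card (Module.Free.ChooseBasisIndex ℤ (𝓞 F)) = 3 := by
    rw [← Module.finrank_eq_card_basis (RingOfIntegers.basis F), RingOfIntegers.rank, hd]
  obtain ⟨b, hb⟩ : ∃ b : Module.Basis (Fin 3) ℤ (𝓞 F), Algebra.discr ℤ b = discr F := by
    refine ⟨(RingOfIntegers.basis F).reindex (Fintype.equivFinOfCardEq hcard), ?_⟩
    unfold discr
    rw [Module.Basis.coe_reindex, Algebra.discr_reindex]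
  obtain ⟨P, hP⟩ : ∃ P : Matrix (Fin 3) (Fin 3) ℤ, P = b.toMatrix ![y₀, y₁, y₂] := ⟨_, rfl⟩
  have hvec : Matrix.vecMul (b : Fin 3 → 𝓞 F) (P.map (algebraMap ℤ (𝓞 F))) = ![y₀, y₁, y₂] := by
    funext j
    rw [← b.sum_toMatrix_smul_self ![y₀, y₁, y₂] j]
    simp only [Matrix.vecMul, dotProduct, Matrix.map_apply, hP]
    refine Finset.sum_congr rfl fun i _ => ?_
    rw [Algebra.smul_def, mul_comm]
  have hdisc := Algebra.discr_of_matrix_vecMul (A := ℤ) (b : Fin 3 → 𝓞 F) P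
  rw [hvec, hdet, hb] at hdisc
  -- `n² = (det P)² discr F`
  have hn0 : n ≠ 0 := hsq.ne_zero
  have hPn : P.det.natAbs ∣ n := by
    have h5 : P.det.natAbs ^ 2 ∣ n ^ 2 := by
      have : P.det ^ 2 ∣ (n : ℤ) ^ 2 := ⟨discr F, hdisc⟩
      have h6 := Int.natAbs_dvd_natAbs.2 this
      rwa [Int.natAbs_pow, Int.natAbs_pow, Int.natAbs_natCast] at h6
    exact (Nat.pow_dvd_pow_iff two_ne_zero).1 h5
  have hP1 : P.det.natAbs = 1 := by
    by_contra hne
    obtain ⟨p, hp, hpP⟩ := Nat.exists_prime_and_dvd hne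
    have hpn : p ∣ n := hpP.trans hPn
    have hpd := dvd_disc C hn hsq hth hp hpn
    obtain ⟨a, ha⟩ : (p : ℤ) ∣ P.det := Int.natCast_dvd.2 hpP
    obtain ⟨d, hd'⟩ := hpd
    obtain ⟨m, hm⟩ := hpn
    have hp0 : (p : ℤ) ≠ 0 := by exact_mod_cast hp.ne_zero
    have h5 : (m : ℤ) ^ 2 = p * (a ^ 2 * d) := by
      apply mul_left_cancel₀ (pow_ne_zero 2 hp0)
      rw [ha, hd', hm] at hdisc
      push_cast at hdisc
      linear_combination hdisc
    have hpi : Prime (p : ℤ) := Nat.prime_iff_prime_int.1 hp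
    have h6 : (p : ℤ) ∣ (m : ℤ) := hpi.dvd_of_dvd_pow ⟨_, h5⟩
    have h7 : p ∣ m := by exact_mod_cast h6
    have h8 := hsq p (by rw [hm]; exact Nat.mul_dvd_mul_left p h7)
    rw [Nat.isUnit_iff] at h8
    exact hp.one_lt.ne' h8
  have h5 : P.det ^ 2 = 1 := by
    have := congrArg (fun k : ℕ => (k : ℤ) ^ 2) hP1
    simp only [Nat.cast_one, one_pow] at this
    rw [← this, Int.natCast_natAbs, sq_abs]
  rw [h5, one_mul] at hdisc
  exact hdisc.symm

end

end Pool.Agent.Run7.h741.CC
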