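import Pool.Agent.Run7.h741.CC.Dic4

/-!
# The dictionary of the cyclic cubic fields, part 5

The pairs `(u, v)` of positive integers with `4 n = u² + 27 v²`, `n` squarefree, correspond to the
cyclic cubic fields `F` unramified at `3`: `F = ℚ(θ)`, `θ³ = 3 n θ + n u`, `disc F = n²`.
-/

set_option autoImplicit false

open NumberField Polynomial

namespace Pool.Agent.Run7.h741.CC

section

variable {u v n : ℕ}

/-- the polynomial -/
noncomputable def pol (u n : ℕ) : ℚ[X] := X ^ 3 - (C (3 * (n : ℚ)) * X + C ((n : ℚ) * u))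

lemma pol_monic (u n : ℕ) : (pol u n).Monic := by
  unfold pol
  apply Monic.sub_of_left (monic_X_pow 3)
  refine lt_of_le_of_lt (degree_linear_le) ?_
  rw [degree_X_pow]
  norm_num

lemma pol_deg (u n : ℕ) : (pol u n).natDegree = 3 := by
  unfold pol
  have h : (C (3 * (n : ℚ)) * X + C ((n : ℚ) * u)).natDegree < (X ^ 3 : ℚ[X]).natDegree := by
    rw [natDegree_X_pow]
    exact lt_of_le_of_lt natDegree_linear_le (by norm_num)
  rw [natDegree_sub_eq_left_of_natDegree_lt h, natDegree_X_pow]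

lemma pol_irr (hn : 4 * n = u ^ 2 + 27 * v ^ 2) (hsq : Squarefree n) (hv : 0 < v) :
    Irreducible (pol u n) := by
  rw [(pol_monic u n).irreducible_iff_roots_eq_zero_of_degree_le_three (by rw [pol_deg]; norm_num)
    (by rw [pol_deg])]
  rw [Multiset.eq_zero_iff_forall_notMem]
  intro t ht
  have h1 := (mem_roots'.1 ht).2
  rw [IsRoot.def, pol, eval_sub, eval_add, eval_mul, eval_pow, eval_X, eval_C, eval_C] at h1
  exact no_rat (u := (u : ℤ)) (n := n) (fun p hp hpn hpu => cop (hnZ hn) hsq hp hpn hpu) hsq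
    (n_ne_one hn hv) t (by push_cast; linear_combination h1)

lemma aeval_pol {F : Type} [Field F] [NumberField F] (th : F) :
    aeval th (pol u n) = th ^ 3 - (3 * (n : F) * th + (n : F) * (u : F)) := by
  simp [pol]

/-- **(D1)** The field of a pair. -/
theorem field_of (hn : 4 * n = u ^ 2 + 27 * v ^ 2) (hsq : Squarefree n) (hv : 0 < v) :
    ∃ (F : Type) (_ : Field F) (_ : NumberField F), Module.finrank ℚ F = 3 ∧ IsGalois ℚ F ∧
      discr F = (n : ℤ) ^ 2 ∧ ∃ th : F, th ^ 3 = 3 * (n : F) * th + (n : F) * (u : F) := by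
  have : Fact (Irreducible (pol u n)) := ⟨pol_irr hn hsq hv⟩
  have hne : pol u n ≠ 0 := (pol_monic u n).ne_zero
  have hfd : FiniteDimensional ℚ (AdjoinRoot (pol u n)) :=
    (AdjoinRoot.powerBasis hne).finite
  have hnf : NumberField (AdjoinRoot (pol u n)) := {
    to_charZero := charZero_of_injective_algebraMap (algebraMap ℚ (AdjoinRoot (pol u n))).injective
    to_finiteDimensional := hfd }
  have hd : Module.finrank ℚ (AdjoinRoot (pol u n)) = 3 := by
    rw [(AdjoinRoot.powerBasis hne).finrank, AdjoinRoot.powerBasis_dim, pol_deg]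
  have hth : (AdjoinRoot.root (pol u n)) ^ 3 = 3 * (n : AdjoinRoot (pol u n)) *
      AdjoinRoot.root (pol u n) + (n : AdjoinRoot (pol u n)) * (u : AdjoinRoot (pol u n)) := by
    have h1 := AdjoinRoot.eval₂_root (pol u n)
    generalize AdjoinRoot.root (pol u n) = r at h1 ⊢
    have h2 : eval₂ (AdjoinRoot.of (pol u n)) r (X ^ 3 - (C (3 * (n : ℚ)) * X + C ((n : ℚ) * u))) = 0 := h1
    rw [eval₂_sub, eval₂_add, eval₂_mul, eval₂_X_pow, eval₂_C, eval₂_C, eval₂_X, map_mul, map_mul,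
      map_natCast, map_natCast, map_ofNat] at h2
    exact sub_eq_zero.1 h2
  have hg : IsGalois ℚ (AdjoinRoot (pol u n)) :=
    gal_th (u := (u : ℤ)) (v := (v : ℤ)) (n := n) (hnZ hn) (by
      rw [Int.cast_natCast]
      exact hth)
      (th_nr hn hsq hv hth) hsq.ne_zero hd
  obtain ⟨s, C⟩ := exists_cyc (AdjoinRoot (pol u n)) hd
  exact ⟨AdjoinRoot (pol u n), inferInstance, hnf, hd, hg, disc_eq hd C hn hsq hv hth, _, hth⟩

end

/-- the pair `(u, v)` belongs to the field `F` -/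
def IsPair (F : Type) [Field F] [NumberField F] (u v : ℕ) : Prop :=
  0 < u ∧ 0 < v ∧ ∃ n : ℕ, 4 * n = u ^ 2 + 27 * v ^ 2 ∧ Squarefree n ∧ discr F = (n : ℤ) ^ 2 ∧
    ∃ th : F, th ^ 3 = 3 * (n : F) * th + (n : F) * (u : F)

/-- **(D2)** The pair of a field. -/
theorem pair_of (F : Type) [Field F] [NumberField F] (hd : Module.finrank ℚ F = 3) [IsGalois ℚ F]
    (h3 : ¬ (3 : ℤ) ∣ discr F) : ∃! uv : ℕ × ℕ, IsPair F uv.1 uv.2 := by
  obtain ⟨s, C⟩ := exists_cyc F hd
  obtain ⟨u, v, n, th, hu, hv, hn, hsq, hth⟩ := exist hd h3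
  have hdisc := disc_eq hd C hn hsq hv hth
  refine ⟨(u, v), ⟨hu, hv, n, hn, hsq, hdisc, th, hth⟩, ?_⟩
  rintro ⟨u₁, v₁⟩ ⟨hu₁, hv₁, n₁, hn₁, hsq₁, hdisc₁, th₁, hth₁⟩
  have hnn : n₁ = n := by
    rw [hdisc] at hdisc₁
    have h : (n : ℤ) ^ 2 = (n₁ : ℤ) ^ 2 := hdisc₁
    have h2 : n ^ 2 = n₁ ^ 2 := by exact_mod_cast h
    exact (Nat.pow_left_injective (by norm_num : 2 ≠ 0) h2).symm
  subst hnn
  obtain ⟨h1, h2⟩ := unique_uv C hn₁ hn hsq hv₁ hv hth₁ hth
  simp only at h1 h2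
  rw [h1, h2]

/-- `n` is not divisible by three, so that the field of a pair is unramified at `3` -/
theorem disc_three {u v n : ℕ} (hn : 4 * n = u ^ 2 + 27 * v ^ 2) (hsq : Squarefree n) :
    ¬ (3 : ℤ) ∣ (n : ℤ) ^ 2 := by
  intro h
  have h1 : (3 : ℤ) ∣ (n : ℤ) := Int.prime_three.dvd_of_dvd_pow h
  have h2 := n_three (hnZ hn) hsq
  omega

/-- **(D3)** Two fields with the same pair are isomorphic. -/
theorem iso_of {F F' : Type} [Field F] [NumberField F] [Field F'] [NumberField F'] {u v : ℕ}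
    (hd : Module.finrank ℚ F = 3) (hd' : Module.finrank ℚ F' = 3)
    (h : IsPair F u v) (h' : IsPair F' u v) : Nonempty (F ≃ₐ[ℚ] F') := by
  obtain ⟨hu, hv, n, hn, hsq, hdisc, th, hth⟩ := h
  obtain ⟨-, -, n', hn', -, -, th', hth'⟩ := h'
  have hnn : n' = n := by omega
  subst hnn
  have hirr := pol_irr hn' hsq hv
  have key : ∀ (L : Type) [Field L] [NumberField L] (t : L), Module.finrank ℚ L = 3 →
      t ^ 3 = 3 * (n' : L) * t + (n' : L) * (u : L) → Nonempty (AdjoinRoot (pol u n') ≃ₐ[ℚ] L) := by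
    intro L _ _ t hL ht
    have : Fact (Irreducible (pol u n')) := ⟨hirr⟩
    have hroot : aeval t (pol u n') = 0 := by rw [aeval_pol, ht, sub_self]
    let f : AdjoinRoot (pol u n') →ₐ[ℚ] L := AdjoinRoot.liftAlgHom (pol u n') (Algebra.ofId ℚ L) t hroot
    have hinj : Function.Injective f := f.toRingHom.injective
    have hfd : FiniteDimensional ℚ (AdjoinRoot (pol u n')) :=
      (AdjoinRoot.powerBasis (pol_monic u n').ne_zero).finite
    have hdd : Module.finrank ℚ (AdjoinRoot (pol u n')) = Module.finrank ℚ L := by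
      rw [(AdjoinRoot.powerBasis (pol_monic u n').ne_zero).finrank, AdjoinRoot.powerBasis_dim,
        pol_deg, hL]
    have hsur : Function.Surjective f :=
      (LinearMap.injective_iff_surjective_of_finrank_eq_finrank (f := f.toLinearMap) hdd).1 hinj
    exact ⟨AlgEquiv.ofBijective f ⟨hinj, hsur⟩⟩
  obtain ⟨e⟩ := key F th hd hth
  obtain ⟨e'⟩ := key F' th' hd' hth'
  exact ⟨e.symm.trans e'⟩

end Pool.Agent.Run7.h741.CC
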